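import Pool.Agent.Helper64.DC.Moll

/-!
# The commutator of a mollifier and a first order operator
-/

open MeasureTheory Set Filter
open scoped Topology ContDiff ENNReal Convolution

noncomputable section

namespace Pool.Agent.Helper64.DC

/-- `∂_k (b (J u)) - J (∂_k (b u))` in the weak sense -/
def comm (N : ℝ) (b : R4 → ℝ) (k : Fin 4) (u : R4 → ℝ) (x : R4) : ℝ :=
  pk k (fun z => b z * J N u z) x - ∫ t, u t * (b t * pk k (rN N) (x - t))

lemma pk_mul {f g : R4 → ℝ} {x : R4} (hf : DifferentiableAt ℝ f x) (hg : DifferentiableAt ℝ g x)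
    (k : Fin 4) : pk k (fun z => f z * g z) x = f x * pk k g x + g x * pk k f x := by
  unfold pk
  rw [fderiv_fun_mul hf hg]
  simp only [add_apply, smul_apply, smul_eq_mul]

lemma integral_pk {g : R4 → ℝ} (hg : ContDiff ℝ 1 g) (hc : HasCompactSupport g) (k : Fin 4) :
    ∫ y, pk k g y = 0 := by
  have hint : Integrable (fun y => fderiv ℝ g y (EuclideanSpace.single k 1)) :=
    (continuous_pk hg k).integrable_of_hasCompactSupport (hasCompactSupport_pk hc k)
  have hint2 : Integrable g := hg.continuous.integrable_of_hasCompactSupport hc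
  have key := integral_mul_fderiv_eq_neg_fderiv_mul_of_integrable (μ := (volume : Measure R4))
    (f := g) (g := fun _ => (1 : ℝ)) (v := EuclideanSpace.single k 1)
    (by simpa using hint) (by simp) (by simpa using hint2)
    (fun x _ => (hg.differentiable one_ne_zero) x) (fun x _ => by fun_prop)
  simp only [fderiv_fun_const, Pi.zero_apply, zero_apply, mul_zero,
    integral_zero, mul_one] at key
  have h2 : ∫ y, pk k g y = ∫ y, fderiv ℝ g y (EuclideanSpace.single k 1) := rfl
  rw [h2]
  linarith

lemma comm_eq {N : ℝ} (hN : 0 < N) {b : R4 → ℝ} (hb : ContDiff ℝ 1 b) (k : Fin 4)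
    {u : R4 → ℝ} (hu : LocallyIntegrable u volume) (x : R4) :
    comm N b k u x = ∫ t, u t * (pk k b x * rN N (x - t)
      + (b x - b t) * pk k (rN N) (x - t)) := by
  unfold comm
  have hJ : DifferentiableAt ℝ (J N u) x := (J_contDiff hN hu).differentiable (by simp) x
  rw [pk_mul ((hb.differentiable one_ne_zero) x) hJ, pk_J hN hu]
  have hr1 : Continuous fun t : R4 => rN N (x - t) :=
    (rN_contDiff N).continuous.comp (continuous_const.sub continuous_id)
  have hr2 : Continuous fun t : R4 => pk k (rN N) (x - t) :=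
    (continuous_pk ((rN_contDiff N).of_le (by norm_num)) k).comp
      (continuous_const.sub continuous_id)
  have hc1 := compact_sub (rN_compact hN) x
  have hc2 := compact_sub (hasCompactSupport_pk (rN_compact hN) k) x
  have i1 : Integrable fun t => u t * rN N (x - t) := integrable_mul hu hr1 hc1
  have i2 : Integrable fun t => u t * pk k (rN N) (x - t) := integrable_mul hu hr2 hc2
  have i3 : Integrable fun t => u t * (b t * pk k (rN N) (x - t)) :=
    integrable_mul hu (hb.continuous.mul hr2) (hc2.mul_left)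
  have e : (fun t => u t * (pk k b x * rN N (x - t) + (b x - b t) * pk k (rN N) (x - t)))
      = fun t => pk k b x * (u t * rN N (x - t)) + b x * (u t * pk k (rN N) (x - t))
        - u t * (b t * pk k (rN N) (x - t)) := by
    funext t; ring
  have i12 : Integrable fun t => pk k b x * (u t * rN N (x - t))
      + b x * (u t * pk k (rN N) (x - t)) := (i1.const_mul _).add (i2.const_mul _)
  rw [e, integral_sub i12 i3,
    integral_add (i1.const_mul _) (i2.const_mul _), integral_const_mul, integral_const_mul]
  unfold J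
  ring

/-- a bound for the function and its derivative -/
lemma exists_bound {b : R4 → ℝ} (hb : ContDiff ℝ 1 b) (hbc : HasCompactSupport b) :
    ∃ L : ℝ, 0 ≤ L ∧ (∀ x y, |b x - b y| ≤ L * ‖x - y‖) ∧ ∀ k x, |pk k b x| ≤ L := by
  obtain ⟨C, hC⟩ := (hb.continuous_fderiv one_ne_zero).bounded_above_of_compact_support
    (hbc.fderiv (𝕜 := ℝ))
  have hC0 : 0 ≤ C := (norm_nonneg _).trans (hC 0)
  refine ⟨C, hC0, ?_, ?_⟩
  · intro x y
    have := convex_univ.norm_image_sub_le_of_norm_fderiv_le (𝕜 := ℝ) (f := b) (C := C)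
      (fun z _ => (hb.differentiable one_ne_zero) z) (fun z _ => hC z) (mem_univ y) (mem_univ x)
    simpa using this
  · intro k x
    unfold pk
    have h1 := (fderiv ℝ b x).le_opNorm (EuclideanSpace.single k 1)
    have h2 : ‖(EuclideanSpace.single k (1 : ℝ) : R4)‖ = 1 := by simp
    rw [h2, mul_one] at h1
    exact h1.trans (hC x)

/-- the mass of the kernel -/
def mass (k : Fin 4) : ℝ := ∫ w, (rho w + ‖w‖ * |pk k rho w|)

lemma lintegral_kernel {N : ℝ} (hN : 0 < N) (k : Fin 4) :
    ∫⁻ z, ENNReal.ofReal (rN N z + ‖z‖ * |pk k (rN N) z|) = ENNReal.ofReal (mass k) := by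
  have hrc : Continuous (pk k rho) := continuous_pk (rho_contDiff.of_le (by norm_num)) k
  have h := lintegral_scale hN (fun w => rho w + ‖w‖ * |pk k rho w|)
    (rho_contDiff.continuous.add (continuous_norm.mul hrc.abs))
    (fun z => add_nonneg (rho_nonneg z) (mul_nonneg (norm_nonneg _) (abs_nonneg _)))
    (rho_compact.add ((hasCompactSupport_pk rho_compact k).norm.mul_left))
  unfold mass
  rw [← h]
  refine lintegral_congr fun z => ?_
  rw [pk_rN, norm_smul, Real.norm_eq_abs, abs_of_pos hN, abs_mul, abs_of_pos (pow_pos hN 5)]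
  unfold rN
  congr 1
  ring

/-- the commutator is bounded in `L^2` -/
lemma comm_bound {b : R4 → ℝ} (hb : ContDiff ℝ 1 b) (hbc : HasCompactSupport b) (k : Fin 4) :
    ∃ M : ℝ, 0 ≤ M ∧ ∀ N : ℝ, 0 < N → ∀ u : R4 → ℝ, MemLp u 2 volume →
      eLpNorm (comm N b k u) 2 volume ≤ ENNReal.ofReal M * eLpNorm u 2 volume := by
  obtain ⟨L, hL0, hLip, hLd⟩ := exists_bound hb hbc
  have hm0 : 0 ≤ mass k := integral_nonneg fun w =>
    add_nonneg (rho_nonneg w) (mul_nonneg (norm_nonneg _) (abs_nonneg _))
  refine ⟨L * mass k, mul_nonneg hL0 hm0, ?_⟩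
  intro N hN u hu
  have hloc : LocallyIntegrable u volume := hu.locallyIntegrable (by norm_num)
  have hcr : Continuous (pk k (rN N)) := continuous_pk ((rN_contDiff N).of_le (by norm_num)) k
  have hmeas : Measurable fun z : R4 =>
      ENNReal.ofReal (L * (rN N z + ‖z‖ * |pk k (rN N) z|)) :=
    (continuous_const.mul ((rN_contDiff N).continuous.add
      (continuous_norm.mul hcr.abs))).measurable.ennreal_ofReal
  have key := young (fun z => ENNReal.ofReal (L * (rN N z + ‖z‖ * |pk k (rN N) z|))) hmeas
    u (comm N b k u) hu.1 ?_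
  · refine key.trans (le_of_eq ?_)
    congr 1
    have : ∀ z, ENNReal.ofReal (L * (rN N z + ‖z‖ * |pk k (rN N) z|))
        = ENNReal.ofReal L * ENNReal.ofReal (rN N z + ‖z‖ * |pk k (rN N) z|) := fun z =>
      ENNReal.ofReal_mul hL0
    simp_rw [this]
    rw [lintegral_const_mul, lintegral_kernel hN k, ENNReal.ofReal_mul hL0]
    exact ((rN_contDiff N).continuous.add
      (continuous_norm.mul hcr.abs)).measurable.ennreal_ofReal
  · intro x
    rw [comm_eq hN hb k hloc x]
    refine (enorm_integral_le_lintegral_enorm _).trans (lintegral_mono fun t => ?_)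
    show ‖u t * (pk k b x * rN N (x - t) + (b x - b t) * pk k (rN N) (x - t))‖ₑ
      ≤ ENNReal.ofReal (L * (rN N (x - t) + ‖x - t‖ * |pk k (rN N) (x - t)|)) * ‖u t‖ₑ
    rw [enorm_mul, mul_comm]
    gcongr
    rw [Real.enorm_eq_ofReal_abs]
    refine ENNReal.ofReal_le_ofReal ?_
    calc |pk k b x * rN N (x - t) + (b x - b t) * pk k (rN N) (x - t)|
        ≤ |pk k b x| * |rN N (x - t)| + |b x - b t| * |pk k (rN N) (x - t)| := by
          refine (abs_add_le _ _).trans ?_
          rw [abs_mul, abs_mul]
      _ ≤ L * rN N (x - t) + (L * ‖x - t‖) * |pk k (rN N) (x - t)| := by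
          rw [abs_of_nonneg (rN_nonneg N (x - t))]
          gcongr
          · exact rN_nonneg _ _
          · exact hLd k x
          · exact hLip x t
      _ = _ := by ring

/-- the commutator on smooth functions -/
lemma comm_smooth_eq {N : ℝ} (hN : 0 < N) {b : R4 → ℝ} (hb : ContDiff ℝ 1 b) (k : Fin 4)
    {u : R4 → ℝ} (hu : ContDiff ℝ 1 u) (huc : HasCompactSupport u) (x : R4) :
    comm N b k u x = ∫ t, ((pk k b x - pk k b t) * u t + (b x - b t) * pk k u t)
      * rN N (x - t) := by
  have hloc : LocallyIntegrable u volume := hu.continuous.locallyIntegrable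
  rw [comm_eq hN hb k hloc x]
  have hr1 : ContDiff ℝ 1 fun t : R4 => rN N (x - t) :=
    ((rN_contDiff N).of_le (by norm_num)).comp (contDiff_const.sub contDiff_id)
  have hr2 : Continuous fun t : R4 => pk k (rN N) (x - t) :=
    (continuous_pk ((rN_contDiff N).of_le (by norm_num)) k).comp
      (continuous_const.sub continuous_id)
  have hg : ContDiff ℝ 1 fun t => ((b x - b t) * u t) * rN N (x - t) :=
    ((contDiff_const.sub hb).mul hu).mul hr1
  have hgc : HasCompactSupport fun t => ((b x - b t) * u t) * rN N (x - t) :=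
    (huc.mul_left).mul_right
  have h0 := integral_pk hg hgc k
  have hpk : ∀ t, pk k (fun t => ((b x - b t) * u t) * rN N (x - t)) t
      = ((b x - b t) * pk k u t - pk k b t * u t) * rN N (x - t)
        - u t * ((b x - b t) * pk k (rN N) (x - t)) := by
    intro t
    have d1 : DifferentiableAt ℝ (fun t => b x - b t) t :=
      (contDiff_const.sub hb).differentiable one_ne_zero t
    have d2 : DifferentiableAt ℝ u t := hu.differentiable one_ne_zero t
    have d3 : DifferentiableAt ℝ (fun t => rN N (x - t)) t := hr1.differentiable one_ne_zero t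
    rw [pk_mul (d1.fun_mul d2) d3, pk_mul d1 d2]
    have e1 : pk k (fun t => b x - b t) t = - pk k b t := by
      unfold pk
      rw [fderiv_const_sub]
      rfl
    have e2 : pk k (fun t => rN N (x - t)) t = - pk k (rN N) (x - t) := by
      unfold pk
      have hd : HasFDerivAt (rN N) (fderiv ℝ (rN N) (x - t)) (x - t) :=
        ((rN_contDiff N).differentiable (by simp) _).hasFDerivAt
      have hs : HasFDerivAt (fun t : R4 => x - t) (-(ContinuousLinearMap.id ℝ R4)) t :=
        (hasFDerivAt_id t).const_sub x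
      have h3 : fderiv ℝ (fun t => rN N (x - t)) t
          = (fderiv ℝ (rN N) (x - t)).comp (-(ContinuousLinearMap.id ℝ R4)) :=
        (hd.comp t hs).fderiv
      rw [h3]
      simp
    rw [e1, e2]
    ring
  simp_rw [hpk] at h0
  have i1 : Integrable fun t => ((b x - b t) * pk k u t - pk k b t * u t) * rN N (x - t) := by
    refine Continuous.integrable_of_hasCompactSupport ?_ ?_
    · exact (((continuous_const.sub hb.continuous).mul (continuous_pk hu k)).sub
        ((continuous_pk hb k).mul hu.continuous)).mul hr1.continuous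
    · exact (compact_sub (rN_compact hN) x).mul_left
  have i2 : Integrable fun t => u t * ((b x - b t) * pk k (rN N) (x - t)) := by
    refine Continuous.integrable_of_hasCompactSupport ?_ ?_
    · exact hu.continuous.mul ((continuous_const.sub hb.continuous).mul hr2)
    · exact huc.mul_right
  have i3 : Integrable fun t => pk k b x * (u t * rN N (x - t)) := by
    refine Continuous.integrable_of_hasCompactSupport ?_ ?_
    · exact continuous_const.mul (hu.continuous.mul hr1.continuous)
    · exact (huc.mul_right).mul_left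
  rw [integral_sub i1 i2, sub_eq_zero] at h0
  have e1 : (fun t => u t * (pk k b x * rN N (x - t) + (b x - b t) * pk k (rN N) (x - t)))
      = fun t => pk k b x * (u t * rN N (x - t))
        + u t * ((b x - b t) * pk k (rN N) (x - t)) := by
    funext t; ring
  have e2 : (fun t => ((pk k b x - pk k b t) * u t + (b x - b t) * pk k u t) * rN N (x - t))
      = fun t => pk k b x * (u t * rN N (x - t))
        + ((b x - b t) * pk k u t - pk k b t * u t) * rN N (x - t) := by
    funext t; ring
  rw [e1, e2, integral_add i3 i2, integral_add i3 i1, h0]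

/-- a function dominated by a mollified function -/
lemma young_rN {N : ℝ} (hN : 0 < N) (h T : R4 → ℝ) (hh : AEStronglyMeasurable h volume)
    (hb : ∀ x, ‖T x‖ₑ ≤ ∫⁻ t, ENNReal.ofReal (rN N (x - t)) * ‖h t‖ₑ) :
    eLpNorm T 2 volume ≤ eLpNorm h 2 volume := by
  have := young (fun z => ENNReal.ofReal (rN N z))
    (rN_contDiff N).continuous.measurable.ennreal_ofReal h T hh hb
  rwa [lintegral_rN hN, one_mul] at this

/-- the commutator tends to zero on smooth functions -/
lemma comm_smooth {b : R4 → ℝ} (hb : ContDiff ℝ 1 b) (hbc : HasCompactSupport b) (k : Fin 4)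
    {u : R4 → ℝ} (hu : ContDiff ℝ 1 u) (huc : HasCompactSupport u) {ε : ℝ} (hε : 0 < ε) :
    ∃ N0 : ℝ, 0 < N0 ∧ ∀ N, N0 ≤ N → eLpNorm (comm N b k u) 2 volume ≤ ENNReal.ofReal ε := by
  obtain ⟨L, hL0, hLip, hLd⟩ := exists_bound hb hbc
  set h : R4 → ℝ := fun t => |u t| + |pk k u t| with hh
  have hhc : Continuous h := hu.continuous.abs.add (continuous_pk hu k).abs
  have hhs : HasCompactSupport h := huc.norm.add (hasCompactSupport_pk huc k).norm
  have hhm : MemLp h 2 volume := hhc.memLp_of_hasCompactSupport hhs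
  set A : ℝ := (eLpNorm h 2 volume).toReal with hA
  have hA0 : 0 ≤ A := ENNReal.toReal_nonneg
  have hAe : eLpNorm h 2 volume = ENNReal.ofReal A :=
    (ENNReal.ofReal_toReal hhm.eLpNorm_ne_top).symm
  set δ : ℝ := ε / (A + 1) with hδ
  have hδ0 : 0 < δ := by positivity
  have huc2 : UniformContinuous (pk k b) :=
    (hasCompactSupport_pk hbc k).uniformContinuous_of_continuous (continuous_pk hb k)
  obtain ⟨η, hη0, hη⟩ := Metric.uniformContinuous_iff.1 huc2 δ hδ0
  refine ⟨max (2 / η) ((L + 1) / δ), by positivity, ?_⟩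
  intro N hNN
  have hN1 : 2 / η ≤ N := (le_max_left _ _).trans hNN
  have hN2 : (L + 1) / δ ≤ N := (le_max_right _ _).trans hNN
  have hN : 0 < N := lt_of_lt_of_le (by positivity) hN1
  have hNη : 1 / N < η := by
    rw [div_lt_iff₀ hN]
    rw [div_le_iff₀ hη0] at hN1
    linarith
  have hNL : L / N ≤ δ := by
    rw [div_le_iff₀ hN]
    rw [div_le_iff₀ hδ0] at hN2
    linarith
  have key := young_rN hN (fun t => δ * h t) (comm N b k u)
    (continuous_const.mul hhc).aestronglyMeasurable ?_
  · refine key.trans ?_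
    have e1 : eLpNorm (fun t => δ * h t) 2 volume = ENNReal.ofReal δ * eLpNorm h 2 volume := by
      have := eLpNorm_const_smul δ h 2 (volume : Measure R4)
      rw [Real.enorm_eq_ofReal hδ0.le] at this
      exact this
    rw [e1, hAe, ← ENNReal.ofReal_mul hδ0.le]
    refine ENNReal.ofReal_le_ofReal ?_
    rw [hδ, div_mul_eq_mul_div, div_le_iff₀ (by positivity)]
    nlinarith
  · intro x
    rw [comm_smooth_eq hN hb k hu huc x]
    refine (enorm_integral_le_lintegral_enorm _).trans (lintegral_mono fun t => ?_)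
    show ‖((pk k b x - pk k b t) * u t + (b x - b t) * pk k u t) * rN N (x - t)‖ₑ
      ≤ ENNReal.ofReal (rN N (x - t)) * ‖δ * h t‖ₑ
    rw [enorm_mul, mul_comm, Real.enorm_eq_ofReal (rN_nonneg N (x - t))]
    by_cases hx : 1 / N ≤ ‖x - t‖
    · rw [rN_zero hN hx]; simp
    · rw [not_le] at hx
      gcongr
      rw [Real.enorm_eq_ofReal_abs, Real.enorm_eq_ofReal_abs]
      refine ENNReal.ofReal_le_ofReal ?_
      have h1 : |pk k b x - pk k b t| ≤ δ := by
        have := hη (a := x) (b := t) (by rw [dist_eq_norm]; linarith)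
        rw [Real.dist_eq] at this
        exact this.le
      have h2 : |b x - b t| ≤ δ := by
        refine (hLip x t).trans ?_
        calc L * ‖x - t‖ ≤ L * (1 / N) := by gcongr
          _ = L / N := by ring
          _ ≤ δ := hNL
      rw [abs_mul, abs_of_pos hδ0, abs_of_nonneg (show 0 ≤ h t by positivity)]
      calc |(pk k b x - pk k b t) * u t + (b x - b t) * pk k u t|
          ≤ |pk k b x - pk k b t| * |u t| + |b x - b t| * |pk k u t| := by
            refine (abs_add_le _ _).trans ?_
            rw [abs_mul, abs_mul]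
        _ ≤ δ * |u t| + δ * |pk k u t| := by gcongr
        _ = δ * h t := by rw [hh]; ring

lemma J_sub {N : ℝ} (hN : 0 < N) {u v : R4 → ℝ} (hu : LocallyIntegrable u volume)
    (hv : LocallyIntegrable v volume) (x : R4) : J N (u - v) x = J N u x - J N v x := by
  unfold J
  have hr1 : Continuous fun t : R4 => rN N (x - t) :=
    (rN_contDiff N).continuous.comp (continuous_const.sub continuous_id)
  have hc1 := compact_sub (rN_compact hN) x
  rw [← integral_sub (integrable_mul hu hr1 hc1) (integrable_mul hv hr1 hc1)]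
  refine integral_congr_ae (Eventually.of_forall fun t => ?_)
  simp only [Pi.sub_apply]
  ring

lemma comm_sub {N : ℝ} (hN : 0 < N) {b : R4 → ℝ} (hb : ContDiff ℝ 1 b) (k : Fin 4)
    {u v : R4 → ℝ} (hu : LocallyIntegrable u volume) (hv : LocallyIntegrable v volume) :
    comm N b k (u - v) = comm N b k u - comm N b k v := by
  funext x
  rw [Pi.sub_apply, comm_eq hN hb k hu, comm_eq hN hb k hv, comm_eq hN hb k (hu.sub hv)]
  have hr1 : Continuous fun t : R4 => rN N (x - t) :=
    (rN_contDiff N).continuous.comp (continuous_const.sub continuous_id)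
  have hr2 : Continuous fun t : R4 => pk k (rN N) (x - t) :=
    (continuous_pk ((rN_contDiff N).of_le (by norm_num)) k).comp
      (continuous_const.sub continuous_id)
  have hc1 := compact_sub (rN_compact hN) x
  have hc2 := compact_sub (hasCompactSupport_pk (rN_compact hN) k) x
  have hw : Continuous fun t => pk k b x * rN N (x - t) + (b x - b t) * pk k (rN N) (x - t) :=
    (continuous_const.mul hr1).add ((continuous_const.sub hb.continuous).mul hr2)
  have hwc : HasCompactSupport fun t => pk k b x * rN N (x - t)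
      + (b x - b t) * pk k (rN N) (x - t) := hc1.mul_left.add hc2.mul_left
  rw [← integral_sub (integrable_mul hu hw hwc) (integrable_mul hv hw hwc)]
  refine integral_congr_ae (Eventually.of_forall fun t => ?_)
  simp only [Pi.sub_apply]
  ring

lemma comm_continuous {N : ℝ} (hN : 0 < N) {b : R4 → ℝ} (hb : ContDiff ℝ 1 b)
    (hbc : HasCompactSupport b) (k : Fin 4) {u : R4 → ℝ} (hu : LocallyIntegrable u volume) : Continuous (comm N b k u) := by
  have hJ : ContDiff ℝ 1 (J N u) := (J_contDiff hN hu).of_le (by norm_num)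
  have h1 : Continuous (pk k (fun z => b z * J N u z)) := continuous_pk (hb.mul hJ) k
  have hbu : LocallyIntegrable (fun t => u t * b t) volume := by
    exact (integrable_mul hu hb.continuous hbc).locallyIntegrable
  have h2 : (fun x => ∫ t, u t * (b t * pk k (rN N) (x - t))) = pk k (J N (fun t => u t * b t)) := by
    funext x
    rw [pk_J hN hbu]
    refine integral_congr_ae (Eventually.of_forall fun t => ?_)
    ring
  unfold comm
  refine h1.sub ?_
  rw [h2]
  exact continuous_pk ((J_contDiff hN hbu).of_le (by norm_num)) k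

/-- **Friedrichs' lemma** -/
theorem comm_tendsto {b : R4 → ℝ} (hb : ContDiff ℝ 1 b) (hbc : HasCompactSupport b) (k : Fin 4)
    {u : R4 → ℝ} (hu : MemLp u 2 volume) {ε : ℝ} (hε : 0 < ε) :
    ∃ N0 : ℝ, 0 < N0 ∧ ∀ N, N0 ≤ N → eLpNorm (comm N b k u) 2 volume ≤ ENNReal.ofReal ε := by
  obtain ⟨M, hM0, hM⟩ := comm_bound hb hbc k
  obtain ⟨g, hgc, hg, hgu⟩ := hu.exist_eLpNorm_sub_le (p := 2) (by norm_num) (by norm_num)
    (ε := ε / (2 * (M + 1))) (by positivity)
  have hg1 : ContDiff ℝ 1 g := hg.of_le (by norm_num)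
  have hgm : MemLp g 2 volume := hg.continuous.memLp_of_hasCompactSupport hgc
  obtain ⟨N0, hN0, hN⟩ := comm_smooth hb hbc k hg1 hgc (ε := ε / 2) (by positivity)
  refine ⟨N0, hN0, ?_⟩
  intro N hNN
  have hNp : 0 < N := hN0.trans_le hNN
  have hul : LocallyIntegrable u volume := hu.locallyIntegrable (by norm_num)
  have hgl : LocallyIntegrable g volume := hgm.locallyIntegrable (by norm_num)
  have e : comm N b k u = comm N b k (u - g) + comm N b k g := by
    rw [comm_sub hNp hb k hul hgl]; simp
  rw [e]
  have hm1 : AEStronglyMeasurable (comm N b k (u - g)) volume :=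
    (comm_continuous hNp hb hbc k (hul.sub hgl)).aestronglyMeasurable
  have hm2 : AEStronglyMeasurable (comm N b k g) volume :=
    (comm_continuous hNp hb hbc k hgl).aestronglyMeasurable
  refine (eLpNorm_add_le hm1 hm2 (by norm_num)).trans ?_
  have h1 : eLpNorm (comm N b k (u - g)) 2 volume ≤ ENNReal.ofReal (ε / 2) := by
    refine (hM N hNp (u - g) (hu.sub hgm)).trans ?_
    calc ENNReal.ofReal M * eLpNorm (u - g) 2 volume
        ≤ ENNReal.ofReal M * ENNReal.ofReal (ε / (2 * (M + 1))) := by gcongr
      _ = ENNReal.ofReal (M * (ε / (2 * (M + 1)))) := (ENNReal.ofReal_mul hM0).symm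
      _ ≤ ENNReal.ofReal (ε / 2) := by
          refine ENNReal.ofReal_le_ofReal ?_
          rw [mul_div_assoc', div_le_div_iff₀ (by positivity) (by positivity)]
          nlinarith
  calc eLpNorm (comm N b k (u - g)) 2 volume + eLpNorm (comm N b k g) 2 volume
      ≤ ENNReal.ofReal (ε / 2) + ENNReal.ofReal (ε / 2) := add_le_add h1 (hN N hNN)
    _ = ENNReal.ofReal ε := by
        rw [← ENNReal.ofReal_add (by positivity) (by positivity)]
        congr 1; ring

lemma J_bound {N : ℝ} (hN : 0 < N) {u : R4 → ℝ} (hu : MemLp u 2 volume) :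
    eLpNorm (J N u) 2 volume ≤ eLpNorm u 2 volume := by
  refine young_rN hN u (J N u) hu.1 fun x => ?_
  unfold J
  refine (enorm_integral_le_lintegral_enorm _).trans (lintegral_mono fun t => ?_)
  show ‖u t * rN N (x - t)‖ₑ ≤ ENNReal.ofReal (rN N (x - t)) * ‖u t‖ₑ
  rw [enorm_mul, mul_comm, Real.enorm_eq_ofReal (rN_nonneg N (x - t))]

lemma J_smooth {u : R4 → ℝ} (hu : ContDiff ℝ 1 u) (huc : HasCompactSupport u) {ε : ℝ}
    (hε : 0 < ε) : ∃ N0 : ℝ, 0 < N0 ∧ ∀ N, N0 ≤ N →
      eLpNorm (J N u - u) 2 volume ≤ ENNReal.ofReal ε := by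
  obtain ⟨L, hL0, hLip, -⟩ := exists_bound hu huc
  set S : Set R4 := Metric.cthickening 1 (tsupport u) with hS
  have hSc : IsCompact S := huc.isCompact.cthickening
  set h : R4 → ℝ := S.indicator fun _ => (1 : ℝ) with hh
  have hhm : MemLp h 2 volume :=
    memLp_indicator_const 2 hSc.measurableSet 1 (Or.inr hSc.measure_lt_top.ne)
  set A : ℝ := (eLpNorm h 2 volume).toReal with hA
  have hA0 : 0 ≤ A := ENNReal.toReal_nonneg
  have hAe : eLpNorm h 2 volume = ENNReal.ofReal A :=
    (ENNReal.ofReal_toReal hhm.eLpNorm_ne_top).symm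
  set δ : ℝ := ε / (A + 1) with hδ
  have hδ0 : 0 < δ := by positivity
  refine ⟨max 1 ((L + 1) / δ), by positivity, ?_⟩
  intro N hNN
  have hN1 : 1 ≤ N := (le_max_left _ _).trans hNN
  have hN2 : (L + 1) / δ ≤ N := (le_max_right _ _).trans hNN
  have hN : 0 < N := by linarith
  have hNL : L / N ≤ δ := by
    rw [div_le_iff₀ hN]
    rw [div_le_iff₀ hδ0] at hN2
    linarith
  have hN1' : 1 / N ≤ 1 := by rw [div_le_one hN]; exact hN1
  have key := young_rN hN (fun t => δ * h t) (J N u - u)
    (hhm.1.const_mul δ) ?_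
  · refine key.trans ?_
    have e1 : eLpNorm (fun t => δ * h t) 2 volume = ENNReal.ofReal δ * eLpNorm h 2 volume := by
      have := eLpNorm_const_smul δ h 2 (volume : Measure R4)
      rw [Real.enorm_eq_ofReal hδ0.le] at this
      exact this
    rw [e1, hAe, ← ENNReal.ofReal_mul hδ0.le]
    refine ENNReal.ofReal_le_ofReal ?_
    rw [hδ, div_mul_eq_mul_div, div_le_iff₀ (by positivity)]
    nlinarith
  · intro x
    have hr1 : Continuous fun t : R4 => rN N (x - t) :=
      (rN_contDiff N).continuous.comp (continuous_const.sub continuous_id)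
    have hc1 := compact_sub (rN_compact hN) x
    have hi1 : Integrable fun t => u t * rN N (x - t) :=
      (hu.continuous.mul hr1).integrable_of_hasCompactSupport huc.mul_right
    have hi2 : Integrable fun t => u x * rN N (x - t) :=
      (continuous_const.mul hr1).integrable_of_hasCompactSupport hc1.mul_left
    have e : (J N u - u) x = ∫ t, (u t - u x) * rN N (x - t) := by
      have e2 : (fun t => (u t - u x) * rN N (x - t))
          = fun t => u t * rN N (x - t) - u x * rN N (x - t) := by
        funext t; ring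
      rw [e2, integral_sub hi1 hi2, integral_const_mul, integral_rN_sub hN, mul_one]
      rfl
    rw [e]
    refine (enorm_integral_le_lintegral_enorm _).trans (lintegral_mono fun t => ?_)
    show ‖(u t - u x) * rN N (x - t)‖ₑ ≤ ENNReal.ofReal (rN N (x - t)) * ‖δ * h t‖ₑ
    rw [enorm_mul, mul_comm, Real.enorm_eq_ofReal (rN_nonneg N (x - t))]
    by_cases hx : 1 / N ≤ ‖x - t‖
    · rw [rN_zero hN hx]; simp
    · rw [not_le] at hx
      gcongr
      rw [Real.enorm_eq_ofReal_abs, Real.enorm_eq_ofReal_abs]
      refine ENNReal.ofReal_le_ofReal ?_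
      by_cases ht : t ∈ S
      · rw [hh, indicator_of_mem ht, mul_one, abs_of_pos hδ0]
        refine (hLip t x).trans ?_
        rw [norm_sub_rev]
        calc L * ‖x - t‖ ≤ L * (1 / N) := by gcongr
          _ = L / N := by ring
          _ ≤ δ := hNL
      · have hut : u t = 0 := by
          by_contra hne
          exact ht (Metric.self_subset_cthickening _ (subset_tsupport _ hne))
        have hux : u x = 0 := by
          by_contra hne
          apply ht
          refine Metric.mem_cthickening_of_dist_le t x 1 _ (subset_tsupport _ hne) ?_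
          rw [dist_comm, dist_eq_norm]
          linarith
        rw [hut, hux, sub_self, abs_zero]
        exact abs_nonneg _

/-- mollification converges in `L^2` -/
theorem J_tendsto {u : R4 → ℝ} (hu : MemLp u 2 volume) {ε : ℝ} (hε : 0 < ε) :
    ∃ N0 : ℝ, 0 < N0 ∧ ∀ N, N0 ≤ N → eLpNorm (J N u - u) 2 volume ≤ ENNReal.ofReal ε := by
  obtain ⟨g, hgc, hg, hgu⟩ := hu.exist_eLpNorm_sub_le (p := 2) (by norm_num) (by norm_num)
    (ε := ε / 3) (by positivity)
  have hg1 : ContDiff ℝ 1 g := hg.of_le (by norm_num)
  have hgm : MemLp g 2 volume := hg.continuous.memLp_of_hasCompactSupport hgc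
  obtain ⟨N0, hN0, hN⟩ := J_smooth hg1 hgc (ε := ε / 3) (by positivity)
  refine ⟨N0, hN0, ?_⟩
  intro N hNN
  have hNp : 0 < N := hN0.trans_le hNN
  have hul : LocallyIntegrable u volume := hu.locallyIntegrable (by norm_num)
  have hgl : LocallyIntegrable g volume := hgm.locallyIntegrable (by norm_num)
  have e : J N u - u = (J N (u - g) + (J N g - g)) + (g - u) := by
    funext x
    simp only [Pi.add_apply, Pi.sub_apply]
    rw [J_sub hNp hul hgl]
    ring
  rw [e]
  have hm1 : AEStronglyMeasurable (J N (u - g)) volume :=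
    (J_contDiff hNp (hul.sub hgl)).continuous.aestronglyMeasurable
  have hm2 : AEStronglyMeasurable (J N g - g) volume :=
    ((J_contDiff hNp hgl).continuous.sub hg.continuous).aestronglyMeasurable
  have hm3 : AEStronglyMeasurable (g - u) volume := hgm.1.sub hu.1
  refine (eLpNorm_add_le (hm1.add hm2) hm3 (by norm_num)).trans ?_
  have h1 : eLpNorm (J N (u - g)) 2 volume ≤ ENNReal.ofReal (ε / 3) :=
    (J_bound hNp (hu.sub hgm)).trans hgu
  have h3 : eLpNorm (g - u) 2 volume ≤ ENNReal.ofReal (ε / 3) := by
    rw [eLpNorm_sub_comm]; exact hgu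
  calc eLpNorm (J N (u - g) + (J N g - g)) 2 volume + eLpNorm (g - u) 2 volume
      ≤ (ENNReal.ofReal (ε / 3) + ENNReal.ofReal (ε / 3)) + ENNReal.ofReal (ε / 3) :=
        add_le_add ((eLpNorm_add_le hm1 hm2 (by norm_num)).trans (add_le_add h1 (hN N hNN))) h3
    _ = ENNReal.ofReal ε := by
        rw [← ENNReal.ofReal_add (by positivity) (by positivity),
          ← ENNReal.ofReal_add (by positivity) (by positivity)]
        congr 1; ring

end Pool.Agent.Helper64.DC
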