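import Pool.Agent.Helper64.DC.Comm
import Pool.Agent.Helper8.DC.Defs

/-!
# Weak solutions are strong solutions (Friedrichs)
-/

open MeasureTheory Set Filter
open scoped Topology ContDiff ENNReal Manifold

noncomputable section

namespace Pool.Agent.Helper64.DC

open Pool.Agent.Helper8.DC

lemma int_sq_le {f : R4 → ℝ} (hf : AEStronglyMeasurable f volume) {c : ℝ} (hc : 0 ≤ c)
    (h : eLpNorm f 2 volume ≤ ENNReal.ofReal c) : ∫ y, f y ^ 2 ≤ c ^ 2 := by
  have e2 : (2 : ℝ≥0∞).toReal = 2 := by simp
  rw [eLpNorm_eq_lintegral_rpow_enorm_toReal (by norm_num) (by norm_num), e2] at h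
  have h1 : ∫⁻ y, ‖f y‖ₑ ^ (2 : ℝ) ≤ ENNReal.ofReal (c ^ 2) := by
    have h2 := ENNReal.rpow_le_rpow h (show (0 : ℝ) ≤ 2 by norm_num)
    rw [← ENNReal.rpow_mul] at h2
    have h3 : (1 / (2 : ℝ)) * 2 = 1 := by norm_num
    rw [h3, ENNReal.rpow_one] at h2
    refine h2.trans (le_of_eq ?_)
    rw [ENNReal.ofReal_pow hc]
    exact ENNReal.rpow_natCast _ 2
  have h3 : ∫ y, f y ^ 2 = (∫⁻ y, ENNReal.ofReal (f y ^ 2)).toReal := by
    rw [integral_eq_lintegral_of_nonneg_ae (Eventually.of_forall fun y => sq_nonneg _)
      (hf.pow 2)]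
  rw [h3]
  refine ENNReal.toReal_le_of_le_ofReal (by positivity) ?_
  refine le_trans (le_of_eq ?_) h1
  refine lintegral_congr fun y => ?_
  rw [Real.enorm_eq_ofReal_abs, ENNReal.ofReal_rpow_of_nonneg (abs_nonneg _) (by norm_num)]
  congr 1
  rw [← sq_abs]
  norm_cast

/-- a cut-off function -/
lemma exists_cutoff {K U : Set R4} (hK : IsCompact K) (hU : IsOpen U) (hKU : K ⊆ U) :
    ∃ δ : ℝ, 0 < δ ∧ ∃ η : R4 → ℝ, ContDiff ℝ ∞ η ∧ (∀ y ∈ Metric.cthickening δ K,
      ∀ᶠ z in 𝓝 y, η z = 1) ∧ HasCompactSupport η ∧ tsupport η ⊆ U ∧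
      Metric.cthickening δ K ⊆ U := by
  obtain ⟨d, hd0, hd⟩ := hK.exists_cthickening_subset_open hU hKU
  set t := Metric.cthickening d K with ht
  have htc : IsCompact t := hK.cthickening
  have hsub : Metric.cthickening (d / 2) K ⊆ interior t := by
    refine (Metric.cthickening_subset_thickening' hd0 (by linarith) K).trans ?_
    exact interior_maximal (Metric.thickening_subset_cthickening d K) Metric.isOpen_thickening
  obtain ⟨f, hf1, hf0, -⟩ := exists_contMDiffMap_one_nhds_of_subset_interior 𝓘(ℝ, R4) (n := ⊤)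
    (Metric.isClosed_cthickening : IsClosed (Metric.cthickening (d / 2) K)) hsub
  refine ⟨d / 2, by positivity, f, ?_, ?_, ?_, ?_, ?_⟩
  · exact f.contMDiff.contDiff
  · intro y hy
    exact (eventually_nhdsSet_iff_forall.1 hf1) y hy
  · exact HasCompactSupport.intro htc hf0
  · have : tsupport f ⊆ t := by
      refine closure_minimal ?_ htc.isClosed
      intro y hy
      by_contra h
      exact hy (hf0 y h)
    exact this.trans hd
  · exact (Metric.cthickening_mono (by linarith) K).trans hd

theorem friedrichs {m m' : ℕ} (U : Set E4) (hU : IsOpen U)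
    (B : Fin m' → Fin 4 → Fin m → E4 → ℝ) (hB : ∀ e k a, ContDiffOn ℝ 1 (B e k a) U)
    (K : Set E4) (hK : IsCompact K) (hKU : K ⊆ U)
    (u : Fin m → E4 → ℝ) (f : Fin m' → E4 → ℝ)
    (hu : ∀ a, MemLp (u a) 2 volume) (hf : ∀ e, MemLp (f e) 2 volume)
    (hu0 : ∀ a, ∀ y ∉ K, u a y = 0) (hf0 : ∀ e, ∀ y ∉ K, f e y = 0)
    (hweak : ∀ e (χ : E4 → ℝ), ContDiff ℝ ∞ χ → HasCompactSupport χ → tsupport χ ⊆ U →
      ∫ y, f e y * χ y = - ∫ y, ∑ k, ∑ a, B e k a y * u a y * pd k χ y) :
    ∃ K' : Set E4, IsCompact K' ∧ K' ⊆ U ∧ ∀ ε > 0, ∃ v : Fin m → E4 → ℝ,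
      (∀ a, ContDiff ℝ ∞ (v a)) ∧ (∀ a, ∀ y ∉ K', v a y = 0) ∧
      (∀ a, ∫ y, (v a y - u a y) ^ 2 ≤ ε) ∧
      (∀ e, ∫ y, ((∑ k, pd k (fun z => ∑ a, B e k a z * v a z) y) - f e y) ^ 2 ≤ ε) := by
  obtain ⟨δ, hδ0, η, hη, hη1, hηc, hηU, hδU⟩ := exists_cutoff hK hU hKU
  set K' := Metric.cthickening δ K with hK'
  refine ⟨K', hK.cthickening, hδU, ?_⟩
  intro ε hε
  -- the cut off coefficients
  set b : Fin m' → Fin 4 → Fin m → R4 → ℝ := fun e k a y => η y * B e k a y with hb
  have hbC : ∀ e k a, ContDiff ℝ 1 (b e k a) := by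
    intro e k a
    refine contDiff_of_zero' hU (isClosed_tsupport η) hηU _ ?_ ?_
    · exact (hη.of_le (by norm_num)).contDiffOn.mul (hB e k a)
    · intro y hy
      show η y * B e k a y = 0
      rw [image_eq_zero_of_notMem_tsupport hy, zero_mul]
  have hbc : ∀ e k a, HasCompactSupport (b e k a) := fun e k a => hηc.mul_right
  have hul : ∀ a, LocallyIntegrable (u a) volume := fun a => (hu a).locallyIntegrable (by norm_num)
  have hfl : ∀ e, LocallyIntegrable (f e) volume := fun e => (hf e).locallyIntegrable (by norm_num)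
  set c : ℝ := Real.sqrt ε with hc
  have hc0 : 0 < c := Real.sqrt_pos.2 hε
  have hcc : c ^ 2 = ε := Real.sq_sqrt hε.le
  set c1 : ℝ := c / (2 * (4 * m + 1)) with hc1
  have hc10 : 0 < c1 := by positivity
  -- choose the parameter
  have ev1 : ∀ᶠ N : ℝ in atTop, ∀ e k a,
      eLpNorm (comm N (b e k a) k (u a)) 2 volume ≤ ENNReal.ofReal c1 := by
    rw [eventually_all]; intro e
    rw [eventually_all]; intro k
    rw [eventually_all]; intro a
    obtain ⟨N0, -, hN0⟩ := comm_tendsto (hbC e k a) (hbc e k a) k (hu a) hc10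
    filter_upwards [eventually_ge_atTop N0] with N hN using hN0 N hN
  have ev2 : ∀ᶠ N : ℝ in atTop, ∀ a,
      eLpNorm (J N (u a) - u a) 2 volume ≤ ENNReal.ofReal c := by
    rw [eventually_all]; intro a
    obtain ⟨N0, -, hN0⟩ := J_tendsto (hu a) hc0
    filter_upwards [eventually_ge_atTop N0] with N hN using hN0 N hN
  have ev3 : ∀ᶠ N : ℝ in atTop, ∀ e,
      eLpNorm (J N (f e) - f e) 2 volume ≤ ENNReal.ofReal (c / 2) := by
    rw [eventually_all]; intro e
    obtain ⟨N0, -, hN0⟩ := J_tendsto (hf e) (ε := c / 2) (by positivity)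
    filter_upwards [eventually_ge_atTop N0] with N hN using hN0 N hN
  obtain ⟨N, hN1, hN2, hN3, hN4⟩ :=
    (ev1.and (ev2.and (ev3.and (eventually_ge_atTop (2 / δ + 1))))).exists
  have hN : 0 < N := lt_of_lt_of_le (by positivity) hN4
  have hNδ : 1 / N < δ := by
    rw [div_lt_iff₀ hN]
    have : 2 / δ ≤ N := by linarith
    rw [div_le_iff₀ hδ0] at this
    linarith
  have hsupp : ∀ (w : R4 → ℝ), (∀ y ∉ K, w y = 0) → ∀ y ∉ K', J N w y = 0 := by
    intro w hw y hy
    unfold J
    have : ∀ t, w t * rN N (y - t) = 0 := by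
      intro t
      by_cases ht : t ∈ K
      · have : 1 / N ≤ ‖y - t‖ := by
          by_contra h
          rw [not_le] at h
          apply hy
          refine Metric.mem_cthickening_of_dist_le y t δ K ht ?_
          rw [dist_eq_norm]
          linarith
        rw [rN_zero hN this, mul_zero]
      · rw [hw t ht, zero_mul]
    simp [this]
  refine ⟨fun a => J N (u a), fun a => J_contDiff hN (hul a), fun a => hsupp (u a) (hu0 a), ?_, ?_⟩
  · intro a
    have h1 := int_sq_le (f := J N (u a) - u a)
      ((J_contDiff hN (hul a)).continuous.aestronglyMeasurable.sub (hu a).1) hc0.le (hN2 a)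
    rw [hcc] at h1
    exact h1
  · intro e
    -- the divergence of the regularisation
    have hD : ∀ y, (∑ k, pd k (fun z => ∑ a, B e k a z * J N (u a) z) y)
        = ∑ k, ∑ a, pk k (fun z => b e k a z * J N (u a) z) y := by
      intro y
      refine Finset.sum_congr rfl fun k _ => ?_
      have hdiff : ∀ a ∈ Finset.univ,
          DifferentiableAt ℝ (fun z => b e k a z * J N (u a) z) y := by
        intro a _
        exact ((hbC e k a).differentiable one_ne_zero y).fun_mul
          ((J_contDiff hN (hul a)).differentiable (by simp) y)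
      have h1 : ∑ a, pk k (fun z => b e k a z * J N (u a) z) y
          = pk k (fun z => ∑ a, b e k a z * J N (u a) z) y := by
        unfold pk
        rw [fderiv_fun_sum hdiff]
        simp
      rw [h1]
      have h2 : (fun z => ∑ a, B e k a z * J N (u a) z)
          =ᶠ[𝓝 y] fun z => ∑ a, b e k a z * J N (u a) z := by
        by_cases hy : y ∈ K'
        · filter_upwards [hη1 y hy] with z hz
          refine Finset.sum_congr rfl fun a _ => ?_
          rw [hb]
          simp only [hz, one_mul]
        · filter_upwards [(hK.cthickening (r := δ)).isClosed.isOpen_compl.mem_nhds hy] with z hz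
          refine Finset.sum_congr rfl fun a _ => ?_
          rw [hsupp (u a) (hu0 a) z hz, mul_zero, mul_zero]
      unfold pd pk
      rw [h2.fderiv_eq]
    -- the weak equation
    have hW : ∀ y, J N (f e) y
        = ∑ k, ∑ a, ∫ t, u a t * (b e k a t * pk k (rN N) (y - t)) := by
      intro y
      have hr1 : ContDiff ℝ ∞ fun t : R4 => rN N (y - t) :=
        (rN_contDiff N).comp (contDiff_const.sub contDiff_id)
      have hr2 : ∀ k, Continuous fun t : R4 => pk k (rN N) (y - t) := fun k =>
        (continuous_pk ((rN_contDiff N).of_le (by norm_num)) k).comp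
          (continuous_const.sub continuous_id)
      have hw := hweak e (fun t => η t * rN N (y - t)) (hη.mul hr1) hηc.mul_right
        ((tsupport_mul_subset_left).trans hηU)
      have hL : ∫ t, f e t * (η t * rN N (y - t)) = J N (f e) y := by
        unfold J
        refine integral_congr_ae (Eventually.of_forall fun t => ?_)
        by_cases ht : t ∈ K
        · have h1 : η t = 1 := (hη1 t (Metric.self_subset_cthickening K ht)).self_of_nhds
          simp only [h1, one_mul]
        · simp only [hf0 e t ht, zero_mul]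
      have hpkr : ∀ (k : Fin 4) t, pk k (fun t => rN N (y - t)) t = - pk k (rN N) (y - t) := by
        intro k t
        unfold pk
        have hd : HasFDerivAt (rN N) (fderiv ℝ (rN N) (y - t)) (y - t) :=
          ((rN_contDiff N).differentiable (by simp) _).hasFDerivAt
        have hs : HasFDerivAt (fun t : R4 => y - t) (-(ContinuousLinearMap.id ℝ R4)) t :=
          (hasFDerivAt_id t).const_sub y
        have h3 : fderiv ℝ (fun t => rN N (y - t)) t
            = (fderiv ℝ (rN N) (y - t)).comp (-(ContinuousLinearMap.id ℝ R4)) :=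
          (hd.comp t hs).fderiv
        rw [h3]
        simp
      have hR : ∀ t, ∑ k, ∑ a, B e k a t * u a t * pd k (fun t => η t * rN N (y - t)) t
          = - ∑ k, ∑ a, u a t * (b e k a t * pk k (rN N) (y - t)) := by
        intro t
        rw [← Finset.sum_neg_distrib]
        refine Finset.sum_congr rfl fun k _ => ?_
        rw [← Finset.sum_neg_distrib]
        refine Finset.sum_congr rfl fun a _ => ?_
        by_cases ht : t ∈ K
        · have h0 := hη1 t (Metric.self_subset_cthickening K ht)
          have h1 : η t = 1 := h0.self_of_nhds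
          have h2 : (fun t => η t * rN N (y - t)) =ᶠ[𝓝 t] fun t => rN N (y - t) := by
            filter_upwards [h0] with z hz
            rw [hz, one_mul]
          have h3 : pd k (fun t => η t * rN N (y - t)) t = - pk k (rN N) (y - t) := by
            rw [← hpkr k t]
            unfold pd pk
            rw [h2.fderiv_eq]
          have h4 : b e k a t = B e k a t := by
            show η t * B e k a t = B e k a t
            rw [h1, one_mul]
          rw [h3, h4]
          ring
        · rw [hu0 a t ht]
          ring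
      rw [← hL, hw]
      simp_rw [hR]
      rw [integral_neg, neg_neg]
      have hi : ∀ k a, Integrable fun t => u a t * (b e k a t * pk k (rN N) (y - t)) :=
        fun k a => integrable_mul (hul a) ((hbC e k a).continuous.mul (hr2 k)) (hbc e k a).mul_right
      rw [integral_finsetSum _ (fun k _ => integrable_finsetSum _ (fun a _ => hi k a))]
      exact Finset.sum_congr rfl fun k _ => integral_finsetSum _ (fun a _ => hi k a)
    -- the difference
    set R : R4 → ℝ := (∑ k, ∑ a, comm N (b e k a) k (u a)) + (J N (f e) - f e) with hR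
    have hRe : ∀ y, (∑ k, pd k (fun z => ∑ a, B e k a z * J N (u a) z) y) - f e y = R y := by
      intro y
      rw [hR, hD y]
      simp only [Pi.add_apply, Pi.sub_apply, Finset.sum_apply]
      rw [hW y]
      unfold comm
      simp only [Finset.sum_sub_distrib]
      ring
    have hm1 : ∀ k a, AEStronglyMeasurable (comm N (b e k a) k (u a)) volume := fun k a =>
      (comm_continuous hN (hbC e k a) (hbc e k a) k (hul a)).aestronglyMeasurable
    have hm2 : ∀ k, AEStronglyMeasurable (∑ a, comm N (b e k a) k (u a)) volume := fun k =>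
      Finset.aestronglyMeasurable_sum _ fun a _ => hm1 k a
    have hm3 : AEStronglyMeasurable (∑ k, ∑ a, comm N (b e k a) k (u a)) volume :=
      Finset.aestronglyMeasurable_sum _ fun k _ => hm2 k
    have hm4 : AEStronglyMeasurable (J N (f e) - f e) volume :=
      (J_contDiff hN (hfl e)).continuous.aestronglyMeasurable.sub (hf e).1
    have hRn : eLpNorm R 2 volume ≤ ENNReal.ofReal c := by
      refine (eLpNorm_add_le hm3 hm4 (by norm_num)).trans ?_
      have h1 : eLpNorm (∑ k, ∑ a, comm N (b e k a) k (u a)) 2 volume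
          ≤ ENNReal.ofReal (c / 2) := by
        refine (eLpNorm_sum_le (fun k _ => hm2 k) (by norm_num)).trans ?_
        calc ∑ k : Fin 4, eLpNorm (∑ a, comm N (b e k a) k (u a)) 2 volume
            ≤ ∑ k : Fin 4, ∑ a : Fin m, ENNReal.ofReal c1 := by
              refine Finset.sum_le_sum fun k _ => ?_
              refine (eLpNorm_sum_le (fun a _ => hm1 k a) (by norm_num)).trans ?_
              exact Finset.sum_le_sum fun a _ => hN1 e k a
          _ = ENNReal.ofReal (4 * m * c1) := by
              simp only [Finset.sum_const, Finset.card_univ, Fintype.card_fin, nsmul_eq_mul]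
              rw [ENNReal.ofReal_mul (by positivity), ENNReal.ofReal_mul (by positivity)]
              simp only [ENNReal.ofReal_ofNat, ENNReal.ofReal_natCast]
              push_cast
              ring
          _ ≤ ENNReal.ofReal (c / 2) := by
              refine ENNReal.ofReal_le_ofReal ?_
              rw [hc1, mul_div_assoc', div_le_div_iff₀ (by positivity) (by positivity)]
              nlinarith
      refine (add_le_add h1 (hN3 e)).trans (le_of_eq ?_)
      rw [← ENNReal.ofReal_add (by positivity) (by positivity)]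
      congr 1; ring
    have h5 := int_sq_le (hm3.add hm4) hc0.le hRn
    rw [hcc] at h5
    refine le_trans (le_of_eq ?_) h5
    refine integral_congr_ae (Eventually.of_forall fun y => ?_)
    show ((∑ k, pd k (fun z => ∑ a, B e k a z * J N (u a) z) y) - f e y) ^ 2 = R y ^ 2
    rw [hRe y]

end Pool.Agent.Helper64.DC
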