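import Pool.Agent.Helper64.DC.Young

/-!
# Mollifiers on four-space
-/

open MeasureTheory Set Filter
open scoped Topology ContDiff ENNReal Convolution

noncomputable section

namespace Pool.Agent.Helper64.DC

/-- a function which is `C^1` on an open set and vanishes outside a closed subset of it. -/
lemma contDiff_of_zero' {U K : Set R4} (hU : IsOpen U) (hK : IsClosed K) (hKU : K ⊆ U)
    (h : R4 → ℝ) (h1 : ContDiffOn ℝ 1 h U) (h2 : ∀ x ∉ K, h x = 0) : ContDiff ℝ 1 h := by
  rw [contDiff_iff_contDiffAt]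
  intro x
  by_cases hx : x ∈ U
  · exact h1.contDiffAt (hU.mem_nhds hx)
  · have hx' : x ∈ Kᶜ := fun h => hx (hKU h)
    refine (contDiffAt_const (c := (0 : ℝ))).congr_of_eventuallyEq ?_
    filter_upwards [hK.isOpen_compl.mem_nhds hx'] with y hy using h2 y hy

/-- partial derivative -/
def pk (k : Fin 4) (f : R4 → ℝ) (y : R4) : ℝ := fderiv ℝ f y (EuclideanSpace.single k 1)

lemma continuous_pk {f : R4 → ℝ} (hf : ContDiff ℝ 1 f) (k : Fin 4) : Continuous (pk k f) :=
  (hf.continuous_fderiv one_ne_zero).clm_apply continuous_const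

lemma hasCompactSupport_pk {f : R4 → ℝ} (hc : HasCompactSupport f) (k : Fin 4) :
    HasCompactSupport (pk k f) := by
  refine (hc.fderiv (𝕜 := ℝ)).mono' ?_
  intro y hy
  refine subset_tsupport _ ?_
  intro h
  apply hy
  show fderiv ℝ f y (EuclideanSpace.single k 1) = 0
  rw [h]; rfl

/-- a fixed bump function -/
def bump : ContDiffBump (0 : R4) := ⟨1 / 2, 1, by norm_num, by norm_num⟩

/-- the mollifier of radius one -/
def rho : R4 → ℝ := (bump).normed volume

lemma rho_contDiff : ContDiff ℝ ∞ rho := (bump).contDiff_normed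

lemma rho_nonneg (z : R4) : 0 ≤ rho z := (bump).nonneg_normed z

lemma rho_compact : HasCompactSupport rho := (bump).hasCompactSupport_normed

lemma rho_zero {z : R4} (hz : 1 ≤ ‖z‖) : rho z = 0 := by
  have h : z ∉ Function.support rho := by
    have h2 : Function.support rho = Metric.ball (0 : R4) 1 := (bump).support_normed_eq
    rw [h2, Metric.mem_ball, dist_zero_right, not_lt]
    exact hz
  exact Function.notMem_support.1 h

lemma rho_integral : ∫ z, rho z = 1 := (bump).integral_normed

/-- the rescaled mollifier of radius `1 / N` -/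
def rN (N : ℝ) (z : R4) : ℝ := N ^ 4 * rho (N • z)

lemma rN_contDiff (N : ℝ) : ContDiff ℝ ∞ (rN N) := by
  unfold rN
  exact contDiff_const.mul (rho_contDiff.comp (contDiff_const_smul N))

lemma rN_nonneg (N : ℝ) (z : R4) : 0 ≤ rN N z :=
  mul_nonneg (by positivity) (rho_nonneg _)

lemma rN_zero {N : ℝ} (hN : 0 < N) {z : R4} (hz : 1 / N ≤ ‖z‖) : rN N z = 0 := by
  unfold rN
  rw [rho_zero, mul_zero]
  rw [norm_smul, Real.norm_eq_abs, abs_of_pos hN]
  rwa [div_le_iff₀' hN] at hz

lemma rN_compact {N : ℝ} (hN : 0 < N) : HasCompactSupport (rN N) := by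
  refine HasCompactSupport.intro (isCompact_closedBall (0 : R4) (1 / N)) ?_
  intro z hz
  rw [Metric.mem_closedBall, dist_zero_right, not_le] at hz
  exact rN_zero hN hz.le

lemma pk_rN (N : ℝ) (k : Fin 4) (z : R4) : pk k (rN N) z = N ^ 5 * pk k rho (N • z) := by
  unfold pk rN
  have h1 : HasFDerivAt rho (fderiv ℝ rho (N • z)) (N • z) :=
    (rho_contDiff.differentiable (by simp) _).hasFDerivAt
  have h2 : HasFDerivAt (fun z : R4 => N • z) (N • ContinuousLinearMap.id ℝ R4) z :=
    (hasFDerivAt_id z).const_smul N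
  have h3 := (h1.comp z h2).const_mul (N ^ 4)
  have h4 : fderiv ℝ (fun z => N ^ 4 * rho (N • z)) z
      = N ^ 4 • (fderiv ℝ rho (N • z)).comp (N • ContinuousLinearMap.id ℝ R4) := h3.fderiv
  rw [h4]
  simp only [smul_apply, ContinuousLinearMap.comp_apply, smul_eq_mul,
    ContinuousLinearMap.id_apply, map_smul]
  ring

lemma pk_rN_zero {N : ℝ} (hN : 0 < N) (k : Fin 4) {z : R4} (hz : 1 / N < ‖z‖) :
    pk k (rN N) z = 0 := by
  unfold pk
  have h : rN N =ᶠ[𝓝 z] fun _ => (0 : ℝ) := by
    have ho : IsOpen {w : R4 | 1 / N < ‖w‖} := isOpen_lt continuous_const continuous_norm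
    filter_upwards [ho.mem_nhds hz] with w hw
    exact rN_zero hN hw.le
  rw [h.fderiv_eq]
  simp

/-- rescaling of integrals -/
lemma lintegral_scale {N : ℝ} (hN : 0 < N) (G : R4 → ℝ) (hG : Continuous G)
    (hG0 : ∀ z, 0 ≤ G z) (hGc : HasCompactSupport G) :
    ∫⁻ z, ENNReal.ofReal (N ^ 4 * G (N • z)) = ENNReal.ofReal (∫ z, G z) := by
  have hc : Continuous fun z : R4 => N ^ 4 * G (N • z) :=
    continuous_const.mul (hG.comp (continuous_const_smul N))
  have hcs : HasCompactSupport fun z : R4 => N ^ 4 * G (N • z) := by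
    have := hGc.comp_smul hN.ne'
    exact this.mul_left
  rw [← ofReal_integral_eq_lintegral_ofReal (hc.integrable_of_hasCompactSupport hcs)
    (Eventually.of_forall fun z => mul_nonneg (by positivity) (hG0 _))]
  congr 1
  rw [integral_const_mul, Measure.integral_comp_smul]
  have hfr : Module.finrank ℝ R4 = 4 := by simp
  rw [hfr, smul_eq_mul, ← mul_assoc, abs_of_pos (by positivity), mul_inv_cancel₀ (by positivity),
    one_mul]

lemma lintegral_rN {N : ℝ} (hN : 0 < N) : ∫⁻ z, ENNReal.ofReal (rN N z) = 1 := by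
  have := lintegral_scale hN rho rho_contDiff.continuous rho_nonneg rho_compact
  rw [rho_integral, ENNReal.ofReal_one] at this
  exact this

lemma integral_rN {N : ℝ} (hN : 0 < N) : ∫ z, rN N z = 1 := by
  have h := lintegral_rN hN
  rw [← ofReal_integral_eq_lintegral_ofReal ((rN_contDiff N).continuous.integrable_of_hasCompactSupport
    (rN_compact hN)) (Eventually.of_forall fun z => rN_nonneg N z)] at h
  rwa [ENNReal.ofReal_eq_one] at h

lemma integral_rN_sub {N : ℝ} (hN : 0 < N) (x : R4) : ∫ t, rN N (x - t) = 1 := by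
  rw [← integral_rN hN]
  exact integral_sub_left_eq_self (rN N) volume x

/-- the regularisation -/
def J (N : ℝ) (u : R4 → ℝ) (x : R4) : ℝ := ∫ t, u t * rN N (x - t)

lemma integrable_mul {u w : R4 → ℝ} (hu : LocallyIntegrable u volume) (hw : Continuous w)
    (hwc : HasCompactSupport w) : Integrable fun t => u t * w t := by
  have := hu.integrable_smul_left_of_hasCompactSupport hw hwc
  refine this.congr (Eventually.of_forall fun t => ?_)
  show w t • u t = u t * w t
  rw [smul_eq_mul, mul_comm]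

lemma compact_sub {w : R4 → ℝ} (hwc : HasCompactSupport w) (x : R4) :
    HasCompactSupport fun t => w (x - t) :=
  hwc.comp_homeomorph (Homeomorph.subLeft x)

lemma J_contDiff {N : ℝ} (hN : 0 < N) {u : R4 → ℝ} (hu : LocallyIntegrable u volume) :
    ContDiff ℝ ∞ (J N u) := by
  have := (rN_compact hN).contDiff_convolution_right (ContinuousLinearMap.lsmul ℝ ℝ) hu
    (rN_contDiff N)
  exact this

lemma pk_J {N : ℝ} (hN : 0 < N) {u : R4 → ℝ} (hu : LocallyIntegrable u volume) (k : Fin 4)
    (x : R4) : pk k (J N u) x = ∫ t, u t * pk k (rN N) (x - t) := by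
  have h := (rN_compact hN).hasFDerivAt_convolution_right (ContinuousLinearMap.lsmul ℝ ℝ) hu
    ((rN_contDiff N).of_le (by norm_num)) x
  unfold pk
  have h1 : fderiv ℝ (J N u) x = _ := h.fderiv
  rw [h1]
  rw [convolution_precompR_apply _ hu ((rN_compact hN).fderiv (𝕜 := ℝ))
    ((rN_contDiff N).continuous_fderiv (by simp))]
  rfl

end Pool.Agent.Helper64.DC
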