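import Pool.Agent.Helper8.DC.Defs

/-!
The standard connection over the round four-sphere is positive definite and pinched
-/

set_option autoImplicit false

open scoped ContDiff RealInnerProductSpace

namespace Pool.Agent.Helper64.DC

open Pool.Agent.Helper8.DC

noncomputable section

/-- the standard self-dual forms on `ℝ⁴`: `e01 + e23`, `e02 + e31`, `e03 + e12`. -/
def omega (a : Fin 3) : Fin 4 → Fin 4 → ℝ :=
  ![![![0, 1, 0, 0], ![-1, 0, 0, 0], ![0, 0, 0, 1], ![0, 0, -1, 0]],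
    ![![0, 0, 1, 0], ![0, 0, 0, -1], ![-1, 0, 0, 0], ![0, 1, 0, 0]],
    ![![0, 0, 0, 1], ![0, 0, 1, 0], ![0, -1, 0, 0], ![-1, 0, 0, 0]]] a

/-- the Levi-Civita connection on the bundle of self-dual forms of the round four-sphere, in
stereographic coordinates and the frame given by the three forms above. -/
def inst (y : E4) (m : Fin 4) : R3 := fun a => 2 * (∑ n, omega a m n * y n) / (1 + ‖y‖ ^ 2)

lemma hasFDerivAt_den_inv (y : E4) :
    HasFDerivAt (fun z : E4 => (1 + ‖z‖ ^ 2)⁻¹)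
      ((-((1 + ‖y‖ ^ 2) ^ 2)⁻¹) • ((2 : ℝ) • (innerSL ℝ y))) y := by
  have hne : (1 + ‖y‖ ^ 2) ≠ 0 := by positivity
  have hden : HasFDerivAt (fun z : E4 => 1 + ‖z‖ ^ 2) ((2 : ℝ) • (innerSL ℝ y)) y := by
    have h := (hasStrictFDerivAt_norm_sq y).hasFDerivAt.const_add 1
    have h2 : (2 : ℕ) • (innerSL ℝ y : E4 →L[ℝ] ℝ) = (2 : ℝ) • (innerSL ℝ y) := by
      rw [two_smul, two_smul]
    rw [h2] at h
    exact h
  exact (hasDerivAt_inv hne).comp_hasFDerivAt y hden

lemma hasFDerivAt_inst (m : Fin 4) (y : E4) (a : Fin 3) :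
    HasFDerivAt (fun z : E4 => inst z m a)
      ((2 * ∑ n, omega a m n * y n) • ((-((1 + ‖y‖ ^ 2) ^ 2)⁻¹) • ((2 : ℝ) • (innerSL ℝ y)))
        + (1 + ‖y‖ ^ 2)⁻¹ • ((2 : ℝ) • ∑ n, (omega a m n) •
          (EuclideanSpace.proj n : E4 →L[ℝ] ℝ))) y := by
  have hnum : HasFDerivAt (fun z : E4 => 2 * ∑ n, omega a m n * z n)
      ((2 : ℝ) • ∑ n, (omega a m n) • (EuclideanSpace.proj n : E4 →L[ℝ] ℝ)) y := by
    refine HasFDerivAt.const_mul ?_ 2
    refine HasFDerivAt.fun_sum fun n _ => ?_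
    exact ((EuclideanSpace.proj n : E4 →L[ℝ] ℝ).hasFDerivAt).const_mul _
  exact hnum.mul (hasFDerivAt_den_inv y)

lemma pd_inst (l m : Fin 4) (y : E4) (a : Fin 3) :
    pd l (fun z => inst z m) y a
      = 2 * omega a m l / (1 + ‖y‖ ^ 2)
        - 4 * (∑ n, omega a m n * y n) * y l / (1 + ‖y‖ ^ 2) ^ 2 := by
  have hne : (1 + ‖y‖ ^ 2) ≠ 0 := by positivity
  have hpi : DifferentiableAt ℝ (fun z : E4 => inst z m) y := by
    rw [differentiableAt_pi]
    intro b
    exact (hasFDerivAt_inst m y b).differentiableAt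
  unfold pd
  have h1 : fderiv ℝ (fun z : E4 => inst z m) y (EuclideanSpace.single l 1) a
      = fderiv ℝ (fun z : E4 => inst z m a) y (EuclideanSpace.single l 1) := by
    rw [fderiv_apply hpi a]
    rfl
  rw [h1, (hasFDerivAt_inst m y a).fderiv]
  have h2 : ∀ n, (EuclideanSpace.proj n : E4 →L[ℝ] ℝ) (EuclideanSpace.single l 1)
      = if n = l then (1 : ℝ) else 0 := by
    intro n
    simp
  have h3 : (innerSL ℝ y) (EuclideanSpace.single l (1 : ℝ)) = y l := by
    rw [innerSL_apply_apply, EuclideanSpace.inner_single_right]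
    simp
  have h4 : (∑ n, (omega a m n) • (EuclideanSpace.proj n : E4 →L[ℝ] ℝ))
      (EuclideanSpace.single l 1) = omega a m l := by
    rw [sum_apply]
    simp only [smul_apply, h2, smul_eq_mul]
    simp
  simp only [add_apply, smul_apply, smul_eq_mul, h3, h4]
  field_simp
  ring

lemma normsq (y : E4) : ‖y‖ ^ 2 = y 0 ^ 2 + y 1 ^ 2 + y 2 ^ 2 + y 3 ^ 2 := by
  rw [EuclideanSpace.norm_sq_eq, Fin.sum_univ_four]
  simp only [Real.norm_eq_abs, sq_abs]

/-- the curvature of the standard connection is minus the standard self-dual forms of the round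
metric `4 |dy|^2 / (1 + |y|^2)^2`. -/
theorem curv_inst (y : E4) (l m : Fin 4) (a : Fin 3) :
    curv inst y l m a = -(4 / (1 + ‖y‖ ^ 2) ^ 2) * omega a l m := by
  have hne : (1 + ‖y‖ ^ 2) ≠ 0 := by positivity
  have hn := normsq y
  unfold curv
  rw [Pi.add_apply, Pi.sub_apply, pd_inst, pd_inst]
  set D := 1 + ‖y‖ ^ 2 with hD
  have hD' : D = 1 + (y 0 ^ 2 + y 1 ^ 2 + y 2 ^ 2 + y 3 ^ 2) := by rw [hD, hn]
  have hcross : (crossProduct (inst y l)) (inst y m) a
      = (4 / D ^ 2) * (crossProduct (fun a => ∑ n, omega a l n * y n))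
          (fun a => ∑ n, omega a m n * y n) a := by
    have : ∀ k, inst y k = (2 / D) • (fun a => ∑ n, omega a k n * y n) := by
      intro k
      funext b
      simp only [inst, Pi.smul_apply, smul_eq_mul, ← hD]
      ring
    rw [this, this, map_smul, map_smul, LinearMap.smul_apply, smul_smul, Pi.smul_apply,
      smul_eq_mul]
    ring
  rw [hcross]
  have key : 2 * omega a m l * D - 4 * (∑ n, omega a m n * y n) * y l
      - (2 * omega a l m * D - 4 * (∑ n, omega a l n * y n) * y m)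
      + 4 * (crossProduct (fun a => ∑ n, omega a l n * y n))
          (fun a => ∑ n, omega a m n * y n) a = - 4 * omega a l m := by
    rw [hD']
    fin_cases a <;> fin_cases l <;> fin_cases m <;>
      simp [omega, cross_apply, Fin.sum_univ_four] <;> ring_nf
  field_simp
  linear_combination key


lemma cmp_inst (y : E4) (a : Fin 3) (l m : Fin 4) :
    cmp (curv inst y) a l m = -(4 / (1 + ‖y‖ ^ 2) ^ 2) * omega a l m := curv_inst y l m a

lemma val_inst (y : E4) (u v : Fin 4 → ℝ) (a : Fin 3) :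
    val (curv inst y) u v a
      = -(4 / (1 + ‖y‖ ^ 2) ^ 2) * ∑ l, ∑ m, u l * v m * omega a l m := by
  unfold val
  simp only [Finset.sum_apply, Pi.smul_apply, smul_eq_mul, curv_inst, Finset.mul_sum]
  refine Finset.sum_congr rfl fun l _ => Finset.sum_congr rfl fun m _ => ?_
  ring

lemma gram_inst (y : E4) :
    gram (curv inst y) = (2 * (4 / (1 + ‖y‖ ^ 2) ^ 2) ^ 2) • (1 : Matrix (Fin 3) (Fin 3) ℝ) := by
  ext a b
  unfold gram wedge
  simp only [cmp_inst]
  fin_cases a <;> fin_cases b <;> simp [omega] <;> ring_nf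

/-- the standard connection over the round four-sphere is positive definite. -/
theorem posDef_inst (y : E4) : PosDef (curv inst y) := by
  have hpos : 0 < 4 / (1 + ‖y‖ ^ 2) ^ 2 := by positivity
  set c := 4 / (1 + ‖y‖ ^ 2) ^ 2 with hc
  refine ⟨?_, ?_, ?_⟩
  · intro u v hli h0
    have h : ∀ a, ∑ l, ∑ m, u l * v m * omega a l m = 0 := by
      intro a
      have h1 := congrFun h0 a
      rw [val_inst, ← hc] at h1
      have h2 : -c * (∑ l, ∑ m, u l * v m * omega a l m) = 0 := h1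
      rcases mul_eq_zero.1 h2 with h3 | h3
      · linarith
      · exact h3
    have e0 := h 0
    have e1 := h 1
    have e2 := h 2
    simp [omega, Fin.sum_univ_four] at e0 e1 e2
    have hsq : (u 0 * v 1 - u 1 * v 0) ^ 2 + (u 0 * v 2 - u 2 * v 0) ^ 2
        + (u 0 * v 3 - u 3 * v 0) ^ 2 + (u 1 * v 2 - u 2 * v 1) ^ 2
        + (u 1 * v 3 - u 3 * v 1) ^ 2 + (u 2 * v 3 - u 3 * v 2) ^ 2 = 0 := by
      have a0 : (u 0 * v 1 - u 1 * v 0) + (u 2 * v 3 - u 3 * v 2) = 0 := by linarith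
      have a1 : (u 0 * v 2 - u 2 * v 0) - (u 1 * v 3 - u 3 * v 1) = 0 := by linarith
      have a2 : (u 0 * v 3 - u 3 * v 0) + (u 1 * v 2 - u 2 * v 1) = 0 := by linarith
      have s0 : ((u 0 * v 1 - u 1 * v 0) + (u 2 * v 3 - u 3 * v 2)) ^ 2
          + ((u 0 * v 2 - u 2 * v 0) - (u 1 * v 3 - u 3 * v 1)) ^ 2
          + ((u 0 * v 3 - u 3 * v 0) + (u 1 * v 2 - u 2 * v 1)) ^ 2 = 0 := by
        rw [a0, a1, a2]; norm_num
      linear_combination s0
    have z : ∀ l m, u l * v m - u m * v l = 0 := by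
      have p01 : u 0 * v 1 - u 1 * v 0 = 0 := by nlinarith [sq_nonneg (u 0 * v 1 - u 1 * v 0), sq_nonneg (u 0 * v 2 - u 2 * v 0), sq_nonneg (u 0 * v 3 - u 3 * v 0), sq_nonneg (u 1 * v 2 - u 2 * v 1), sq_nonneg (u 1 * v 3 - u 3 * v 1), sq_nonneg (u 2 * v 3 - u 3 * v 2)]
      have p02 : u 0 * v 2 - u 2 * v 0 = 0 := by nlinarith [sq_nonneg (u 0 * v 1 - u 1 * v 0), sq_nonneg (u 0 * v 2 - u 2 * v 0), sq_nonneg (u 0 * v 3 - u 3 * v 0), sq_nonneg (u 1 * v 2 - u 2 * v 1), sq_nonneg (u 1 * v 3 - u 3 * v 1), sq_nonneg (u 2 * v 3 - u 3 * v 2)]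
      have p03 : u 0 * v 3 - u 3 * v 0 = 0 := by nlinarith [sq_nonneg (u 0 * v 1 - u 1 * v 0), sq_nonneg (u 0 * v 2 - u 2 * v 0), sq_nonneg (u 0 * v 3 - u 3 * v 0), sq_nonneg (u 1 * v 2 - u 2 * v 1), sq_nonneg (u 1 * v 3 - u 3 * v 1), sq_nonneg (u 2 * v 3 - u 3 * v 2)]
      have p12 : u 1 * v 2 - u 2 * v 1 = 0 := by nlinarith [sq_nonneg (u 0 * v 1 - u 1 * v 0), sq_nonneg (u 0 * v 2 - u 2 * v 0), sq_nonneg (u 0 * v 3 - u 3 * v 0), sq_nonneg (u 1 * v 2 - u 2 * v 1), sq_nonneg (u 1 * v 3 - u 3 * v 1), sq_nonneg (u 2 * v 3 - u 3 * v 2)]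
      have p13 : u 1 * v 3 - u 3 * v 1 = 0 := by nlinarith [sq_nonneg (u 0 * v 1 - u 1 * v 0), sq_nonneg (u 0 * v 2 - u 2 * v 0), sq_nonneg (u 0 * v 3 - u 3 * v 0), sq_nonneg (u 1 * v 2 - u 2 * v 1), sq_nonneg (u 1 * v 3 - u 3 * v 1), sq_nonneg (u 2 * v 3 - u 3 * v 2)]
      have p23 : u 2 * v 3 - u 3 * v 2 = 0 := by nlinarith [sq_nonneg (u 0 * v 1 - u 1 * v 0), sq_nonneg (u 0 * v 2 - u 2 * v 0), sq_nonneg (u 0 * v 3 - u 3 * v 0), sq_nonneg (u 1 * v 2 - u 2 * v 1), sq_nonneg (u 1 * v 3 - u 3 * v 1), sq_nonneg (u 2 * v 3 - u 3 * v 2)]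
      intro l m
      fin_cases l <;> fin_cases m <;> simp <;> linarith
    rw [LinearIndependent.pair_iff] at hli
    by_cases hu : u = 0
    · have := hli 1 0 (by rw [hu]; simp)
      exact one_ne_zero this.1
    · obtain ⟨l, hl⟩ := Function.ne_iff.1 hu
      have := hli (v l) (-(u l)) (by
        funext m
        simp only [Pi.add_apply, Pi.smul_apply, smul_eq_mul, Pi.zero_apply]
        linarith [z l m])
      exact hl (neg_eq_zero.1 this.2)
  · intro a
    rw [gram_inst, ← hc]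
    simp only [Matrix.smul_apply, Matrix.one_apply_eq, smul_eq_mul, mul_one]
    positivity
  · intro u v hu hw
    have e : ∀ w : Fin 4 → ℝ, ∑ l, ∑ m, v l * w m * omega 0 l m
        = ∑ l, ∑ m, u l * w m * omega 1 l m := by
      intro w
      have h1 := hw w
      rw [val_inst, val_inst, ← hc] at h1
      exact mul_left_cancel₀ (neg_ne_zero.2 hpos.ne') h1
    have e0 := e ![1, 0, 0, 0]
    have e1 := e ![0, 1, 0, 0]
    have e2 := e ![0, 0, 1, 0]
    have e3 := e ![0, 0, 0, 1]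
    simp [omega, Fin.sum_univ_four] at e0 e1 e2 e3
    rw [val_inst, ← hc]
    have hval : ∑ l, ∑ m, u l * v m * omega 2 l m
        = -(u 0 ^ 2 + u 1 ^ 2 + u 2 ^ 2 + u 3 ^ 2) := by
      simp [omega, Fin.sum_univ_four]
      have e2' : v 3 = - u 0 := by linarith
      rw [e0, e1, e2', e3]
      ring
    rw [hval]
    have hpu : 0 < u 0 ^ 2 + u 1 ^ 2 + u 2 ^ 2 + u 3 ^ 2 := by
      obtain ⟨l, hl⟩ := Function.ne_iff.1 hu
      have : 0 < u l ^ 2 := by
        have : u l ≠ 0 := hl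
        positivity
      fin_cases l <;> simp at this <;>
        nlinarith [sq_nonneg (u 0), sq_nonneg (u 1), sq_nonneg (u 2), sq_nonneg (u 3)]
    nlinarith

/-- the standard connection over the round four-sphere is pinched. -/
theorem pinched_inst (y : E4) : Pinched (curv inst y) := by
  unfold Pinched
  rw [gram_inst]
  set c := (2 * (4 / (1 + ‖y‖ ^ 2) ^ 2) ^ 2) with hc
  have h1 : ((c • (1 : Matrix (Fin 3) (Fin 3) ℝ)) * (c • (1 : Matrix (Fin 3) (Fin 3) ℝ))).trace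
      = 3 * c ^ 2 := by
    rw [Matrix.smul_mul, Matrix.one_mul, smul_smul, Matrix.trace_smul, Matrix.trace_one]
    simp; ring
  have h2 : (c • (1 : Matrix (Fin 3) (Fin 3) ℝ)).trace = 3 * c := by
    rw [Matrix.trace_smul, Matrix.trace_one]
    simp; ring
  rw [h1, h2]
  nlinarith [sq_nonneg c]

end

end Pool.Agent.Helper64.DC
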