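import Mathlib

/-!
# Stokes' theorem for vector densities on a closed manifold
-/

open MeasureTheory Set Filter
open scoped Topology ContDiff Manifold RealInnerProductSpace

noncomputable section

namespace Pool.Agent.Helper64.DC

/-- Euclidean four-space -/
abbrev E4 := EuclideanSpace ℝ (Fin 4)

/-- a function which is `C^1` on an open set and vanishes outside a closed subset of it. -/
lemma contDiff_of_zero {F G : Type*} [NormedAddCommGroup F] [NormedSpace ℝ F]
    [NormedAddCommGroup G] [NormedSpace ℝ G]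
    {U K : Set F} (hU : IsOpen U) (hK : IsClosed K) (hKU : K ⊆ U) (h : F → G)
    (h1 : ContDiffOn ℝ 1 h U) (h2 : ∀ x ∉ K, h x = 0) : ContDiff ℝ 1 h := by
  rw [contDiff_iff_contDiffAt]
  intro x
  by_cases hx : x ∈ U
  · exact h1.contDiffAt (hU.mem_nhds hx)
  · have hx' : x ∈ Kᶜ := fun h => hx (hKU h)
    refine (contDiffAt_const (c := (0 : G))).congr_of_eventuallyEq ?_
    filter_upwards [hK.isOpen_compl.mem_nhds hx'] with y hy using h2 y hy

lemma integrableOn_of_zero {f : E4 → ℝ} {U K : Set E4} (hU : IsOpen U) (hK : IsCompact K)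
    (hKU : K ⊆ U) (hf : ContinuousOn f U) (h0 : ∀ y ∈ U \ K, f y = 0) :
    IntegrableOn f U := by
  have h1 : IntegrableOn f K := (hf.mono hKU).integrableOn_compact hK
  exact h1.of_forall_sdiff_eq_zero hU.measurableSet h0

/-- the integral of a directional derivative of a compactly supported function is zero -/
lemma integral_fderiv_eq_zero {g : E4 → ℝ} (hg : ContDiff ℝ 1 g) (hc : HasCompactSupport g)
    (v : E4) : ∫ y, fderiv ℝ g y v = 0 := by
  have hcont : Continuous (fun y => fderiv ℝ g y v) :=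
    (hg.continuous_fderiv one_ne_zero).clm_apply continuous_const
  have hcs : HasCompactSupport (fun y => fderiv ℝ g y v) := by
    refine (hc.fderiv (𝕜 := ℝ)).mono' ?_
    intro y hy
    refine subset_tsupport _ ?_
    intro h
    apply hy
    show fderiv ℝ g y v = 0
    rw [h]; rfl
  have hint : Integrable (fun y => fderiv ℝ g y v) := hcont.integrable_of_hasCompactSupport hcs
  have hint2 : Integrable g := hg.continuous.integrable_of_hasCompactSupport hc
  have key := integral_mul_fderiv_eq_neg_fderiv_mul_of_integrable (μ := (volume : Measure E4))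
    (f := g) (g := fun _ => (1 : ℝ)) (v := v)
    (by simpa using hint) (by simp) (by simpa using hint2)
    (fun x _ => (hg.differentiable one_ne_zero) x) (fun x _ => by fun_prop)
  simp only [fderiv_fun_const, Pi.zero_apply, zero_apply, mul_zero,
    integral_zero, mul_one] at key
  linarith

/-- divergence theorem for compactly supported vector fields -/
lemma integral_trace_fderiv {G : E4 → E4} (hG : ContDiff ℝ 1 G) (hc : HasCompactSupport G) :
    ∫ y, LinearMap.trace ℝ E4 (fderiv ℝ G y : E4 →ₗ[ℝ] E4) = 0 := by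
  have b := EuclideanSpace.basisFun (Fin 4) ℝ
  have htr : ∀ y, LinearMap.trace ℝ E4 (fderiv ℝ G y : E4 →ₗ[ℝ] E4)
      = ∑ a, fderiv ℝ (fun z => ⟪b a, G z⟫) y (b a) := by
    intro y
    rw [LinearMap.trace_eq_sum_inner _ b]
    refine Finset.sum_congr rfl fun a _ => ?_
    have hd : HasFDerivAt (fun z => ⟪b a, G z⟫)
        ((innerSL ℝ (b a) : E4 →L[ℝ] ℝ).comp (fderiv ℝ G y)) y := by
      have h1 : HasFDerivAt G (fderiv ℝ G y) y :=
        ((hG.differentiable one_ne_zero) y).hasFDerivAt
      exact (innerSL ℝ (b a) : E4 →L[ℝ] ℝ).hasFDerivAt.comp y h1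
    rw [hd.fderiv]
    rfl
  have hga : ∀ a, ContDiff ℝ 1 (fun z => ⟪b a, G z⟫) := fun a =>
    (innerSL ℝ (b a) : E4 →L[ℝ] ℝ).contDiff.comp hG
  have hgc : ∀ a, HasCompactSupport (fun z => ⟪b a, G z⟫) := by
    intro a
    refine hc.mono ?_
    intro y hy hGy
    apply hy
    show ⟪b a, G y⟫ = 0
    rw [hGy, inner_zero_right]
  simp_rw [htr]
  rw [integral_finsetSum]
  · exact Finset.sum_eq_zero fun a _ => integral_fderiv_eq_zero (hga a) (hgc a) _
  · intro a _
    have hcont : Continuous (fun y => fderiv ℝ (fun z => ⟪b a, G z⟫) y (b a)) :=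
      ((hga a).continuous_fderiv one_ne_zero).clm_apply continuous_const
    refine hcont.integrable_of_hasCompactSupport ?_
    refine ((hgc a).fderiv (𝕜 := ℝ)).mono' ?_
    intro y hy
    refine subset_tsupport _ ?_
    intro h
    apply hy
    show fderiv ℝ (fun z => ⟪b a, G z⟫) y (b a) = 0
    rw [h]; rfl


section Manifold

variable {X : Type} [TopologicalSpace X] [T2Space X] [CompactSpace X] [ChartedSpace E4 X]
  [IsManifold 𝓘(ℝ, E4) ∞ X]

/-- the divergence of a vector field on four-space -/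
def dvg (W : E4 → E4) (y : E4) : ℝ := LinearMap.trace ℝ E4 (fderiv ℝ W y : E4 →ₗ[ℝ] E4)

omit [T2Space X] [CompactSpace X] in
lemma contDiffOn_symm {c : OpenPartialHomeomorph X E4}
    (hc : c ∈ IsManifold.maximalAtlas 𝓘(ℝ, E4) ∞ X) {f : X → ℝ}
    (hf : ContMDiff 𝓘(ℝ, E4) 𝓘(ℝ, ℝ) ∞ f) :
    ContDiffOn ℝ ∞ (fun y => f (c.symm y)) c.target := by
  rw [← contMDiffOn_iff_contDiffOn]
  exact hf.comp_contMDiffOn (contMDiffOn_symm_of_mem_maximalAtlas hc)

omit [T2Space X] [CompactSpace X] in
lemma contDiffOn_trans {c e : OpenPartialHomeomorph X E4}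
    (hc : c ∈ IsManifold.maximalAtlas 𝓘(ℝ, E4) ∞ X)
    (he : e ∈ IsManifold.maximalAtlas 𝓘(ℝ, E4) ∞ X) :
    ContDiffOn ℝ ∞ (e ∘ c.symm) (c.symm.trans e).source := by
  rw [← contMDiffOn_iff_contDiffOn]
  refine (contMDiffOn_of_mem_maximalAtlas he).comp
    ((contMDiffOn_symm_of_mem_maximalAtlas hc).mono ?_) ?_
  · intro y hy
    exact hy.1
  · intro y hy
    exact hy.2

variable {ι : Type} (c : ι → OpenPartialHomeomorph X E4)
    (hc : ∀ i, c i ∈ IsManifold.maximalAtlas 𝓘(ℝ, E4) ∞ X)
    (W : ι → E4 → E4) (hW : ∀ i, ContDiffOn ℝ 1 (W i) (c i).target)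
    (hcompat : ∀ i j, ∀ y ∈ (c j).target, (c j).symm y ∈ (c i).source →
      0 < (fderiv ℝ (c i ∘ (c j).symm) y).det ∧
      fderiv ℝ (c i ∘ (c j).symm) y (W j y)
        = (fderiv ℝ (c i ∘ (c j).symm) y).det • W i (c i ((c j).symm y)))
    (ρ : ι → X → ℝ) (hρ : ∀ i, ContMDiff 𝓘(ℝ, E4) 𝓘(ℝ, ℝ) ∞ (ρ i))
    (hρs : ∀ i, tsupport (ρ i) ⊆ (c i).source)

omit [T2Space X] [IsManifold 𝓘(ℝ, E4) ∞ X] in
include hρs in
lemma isCompact_K (i : ι) : IsCompact (c i '' tsupport (ρ i)) :=
  ((isClosed_tsupport _).isCompact).image_of_continuousOn ((c i).continuousOn.mono (hρs i))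

omit [T2Space X] [CompactSpace X] [IsManifold 𝓘(ℝ, E4) ∞ X] in
include hρs in
lemma K_subset (i : ι) : c i '' tsupport (ρ i) ⊆ (c i).target := by
  rintro y ⟨x, hx, rfl⟩
  exact (c i).map_source (hρs i hx)

omit [T2Space X] [CompactSpace X] [IsManifold 𝓘(ℝ, E4) ∞ X] in
lemma notMem_tsupport_of_notMem {i : ι} {y : E4} (hy : y ∈ (c i).target)
    (h : y ∉ c i '' tsupport (ρ i)) : (c i).symm y ∉ tsupport (ρ i) := by
  intro hx
  exact h ⟨(c i).symm y, hx, (c i).right_inv hy⟩

omit [T2Space X] [CompactSpace X] [IsManifold 𝓘(ℝ, E4) ∞ X] in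
/-- a function which vanishes near `c.symm y` -/
lemma eventually_zero {i k : ι} {y : E4} (hy : y ∈ (c k).target)
    (h : (c k).symm y ∉ tsupport (ρ i)) : ∀ᶠ z in 𝓝 y, ρ i ((c k).symm z) = 0 := by
  have h1 : ∀ᶠ x in 𝓝 ((c k).symm y), ρ i x = 0 := by
    filter_upwards [(isClosed_tsupport (ρ i)).isOpen_compl.mem_nhds h] with x hx
    exact image_eq_zero_of_notMem_tsupport hx
  exact ((c k).symm.continuousAt hy).eventually h1

omit [T2Space X] [CompactSpace X] [IsManifold 𝓘(ℝ, E4) ∞ X] in
lemma fderiv_zero {i k : ι} {y : E4} (hy : y ∈ (c k).target)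
    (h : (c k).symm y ∉ tsupport (ρ i)) : fderiv ℝ (fun z => ρ i ((c k).symm z)) y = 0 := by
  have h1 : (fun z => ρ i ((c k).symm z)) =ᶠ[𝓝 y] fun _ => (0 : ℝ) :=
    eventually_zero c ρ hy h
  rw [h1.fderiv_eq]
  simp

omit [T2Space X] in
include hc hW hρ hρs in
/-- the divergence theorem in one chart -/
lemma chart_div (i : ι) :
    ∫ y in (c i).target, ρ i ((c i).symm y) * dvg (W i) y
      = - ∫ y in (c i).target, fderiv ℝ (fun z => ρ i ((c i).symm z)) y (W i y) := by
  set r : E4 → ℝ := fun z => ρ i ((c i).symm z) with hr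
  set U := (c i).target with hU
  have hUo : IsOpen U := (c i).open_target
  set K := c i '' tsupport (ρ i) with hK
  have hKc : IsCompact K := isCompact_K c ρ hρs i
  have hKU : K ⊆ U := K_subset c ρ hρs i
  have hrC : ContDiffOn ℝ 1 r U := (contDiffOn_symm (hc i) (hρ i)).of_le (by norm_num)
  set G : E4 → E4 := U.indicator (fun y => r y • W i y) with hG
  have hG0 : ∀ y ∉ K, G y = 0 := by
    intro y hy
    rw [hG]
    by_cases hyU : y ∈ U
    · rw [indicator_of_mem hyU]
      have : r y = 0 := image_eq_zero_of_notMem_tsupport (f := ρ i) (notMem_tsupport_of_notMem c ρ hyU hy)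
      rw [this, zero_smul]
    · exact indicator_of_notMem hyU _
  have hGU : ContDiffOn ℝ 1 G U := by
    refine (hrC.smul (hW i)).congr ?_
    intro y hy
    exact indicator_of_mem hy _
  have hGC : ContDiff ℝ 1 G := contDiff_of_zero hUo hKc.isClosed hKU G hGU hG0
  have hGs : HasCompactSupport G := HasCompactSupport.intro hKc hG0
  have h0 := integral_trace_fderiv hGC hGs
  have hfd : ∀ y ∈ U, LinearMap.trace ℝ E4 (fderiv ℝ G y : E4 →ₗ[ℝ] E4)
      = r y * dvg (W i) y + fderiv ℝ r y (W i y) := by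
    intro y hy
    have hGe : G =ᶠ[𝓝 y] fun z => r z • W i z := by
      filter_upwards [hUo.mem_nhds hy] with z hz
      exact indicator_of_mem hz _
    have hrd : DifferentiableAt ℝ r y :=
      ((hrC.contDiffAt (hUo.mem_nhds hy)).differentiableAt one_ne_zero)
    have hWd : DifferentiableAt ℝ (W i) y :=
      (((hW i).contDiffAt (hUo.mem_nhds hy)).differentiableAt one_ne_zero)
    rw [hGe.fderiv_eq, fderiv_fun_smul hrd hWd]
    have : ((r y • fderiv ℝ (W i) y + (fderiv ℝ r y).smulRight (W i y) : E4 →L[ℝ] E4) :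
        E4 →ₗ[ℝ] E4) = r y • (fderiv ℝ (W i) y : E4 →ₗ[ℝ] E4)
          + ((fderiv ℝ r y : E4 →ₗ[ℝ] ℝ).smulRight (W i y)) := by
      ext v; simp
    rw [this, map_add, map_smul, smul_eq_mul, LinearMap.trace_smulRight]
    rfl
  have hfd0 : ∀ y ∉ U, LinearMap.trace ℝ E4 (fderiv ℝ G y : E4 →ₗ[ℝ] E4) = 0 := by
    intro y hy
    have hGe : G =ᶠ[𝓝 y] fun _ => (0 : E4) := by
      filter_upwards [hKc.isClosed.isOpen_compl.mem_nhds (fun h => hy (hKU h))] with z hz
      exact hG0 z hz
    rw [hGe.fderiv_eq]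
    simp
  have h1 : ∫ y in U, LinearMap.trace ℝ E4 (fderiv ℝ G y : E4 →ₗ[ℝ] E4) = 0 := by
    rw [setIntegral_eq_integral_of_forall_compl_eq_zero hfd0]
    exact h0
  have h2 : ∫ y in U, (r y * dvg (W i) y + fderiv ℝ r y (W i y)) = 0 := by
    rw [← h1]
    exact (setIntegral_congr_fun hUo.measurableSet hfd).symm
  have hi1 : IntegrableOn (fun y => r y * dvg (W i) y) U := by
    refine integrableOn_of_zero hUo hKc hKU ?_ ?_
    · refine hrC.continuousOn.mul ?_
      have hcf : ContinuousOn (fderiv ℝ (W i)) U :=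
        (hW i).continuousOn_fderiv_of_isOpen hUo le_rfl
      have htc : Continuous (fun A : E4 →L[ℝ] E4 => LinearMap.trace ℝ E4 (A : E4 →ₗ[ℝ] E4)) :=
        ((LinearMap.trace ℝ E4).comp (ContinuousLinearMap.coeLM ℝ)).continuous_of_finiteDimensional
      exact htc.comp_continuousOn hcf
    · intro y hy
      have : r y = 0 := image_eq_zero_of_notMem_tsupport (f := ρ i) (notMem_tsupport_of_notMem c ρ hy.1 hy.2)
      rw [this, zero_mul]
  have hi2 : IntegrableOn (fun y => fderiv ℝ r y (W i y)) U := by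
    refine integrableOn_of_zero hUo hKc hKU ?_ ?_
    · exact (hrC.continuousOn_fderiv_of_isOpen hUo le_rfl).clm_apply (hW i).continuousOn
    · intro y hy
      have : fderiv ℝ r y = 0 := fderiv_zero c ρ hy.1 (notMem_tsupport_of_notMem c ρ hy.1 hy.2)
      rw [this]; rfl
  rw [integral_add hi1 hi2] at h2
  linarith


/-- the integral of one summand -/
def Phi (i k : ι) : ℝ :=
  ∫ y in (c k).target, ρ k ((c k).symm y) * fderiv ℝ (fun z => ρ i ((c k).symm z)) y (W k y)

/-- the same summand in the other chart -/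
def Psi (i k : ι) : ℝ :=
  ∫ y in (c i).target, ρ k ((c i).symm y) * fderiv ℝ (fun z => ρ i ((c i).symm z)) y (W i y)

omit [T2Space X] [CompactSpace X] in
include hc hρ hρs hcompat in
lemma swap (i k : ι) : Psi c W ρ i k = Phi c W ρ i k := by
  unfold Psi Phi
  set S : Set E4 := ((c i).symm.trans (c k)).source with hS
  set S' : Set E4 := ((c i).symm.trans (c k)).target with hS'
  have hSo : IsOpen S := ((c i).symm.trans (c k)).open_source
  have hSo' : IsOpen S' := ((c i).symm.trans (c k)).open_target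
  have hSsub : S ⊆ (c i).target := fun y hy => hy.1
  have hS'sub : S' ⊆ (c k).target := fun y hy => hy.1
  have hS'mem : ∀ y ∈ (c k).target, (c k).symm y ∈ (c i).source → y ∈ S' := by
    intro y hy hx
    exact ⟨hy, hx⟩
  -- restrict both sides
  have hL : ∫ y in (c i).target,
      ρ k ((c i).symm y) * fderiv ℝ (fun z => ρ i ((c i).symm z)) y (W i y)
      = ∫ y in S, ρ k ((c i).symm y) * fderiv ℝ (fun z => ρ i ((c i).symm z)) y (W i y) := by
    refine setIntegral_eq_of_subset_of_forall_sdiff_eq_zero (c i).open_target.measurableSet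
      hSsub ?_
    intro y hy
    have hx : (c i).symm y ∉ (c k).source := fun h => hy.2 ⟨hy.1, h⟩
    have : ρ k ((c i).symm y) = 0 :=
      image_eq_zero_of_notMem_tsupport (f := ρ k) (fun h => hx (hρs k h))
    rw [this, zero_mul]
  have hR : ∫ y in (c k).target,
      ρ k ((c k).symm y) * fderiv ℝ (fun z => ρ i ((c k).symm z)) y (W k y)
      = ∫ y in S', ρ k ((c k).symm y) * fderiv ℝ (fun z => ρ i ((c k).symm z)) y (W k y) := by
    refine setIntegral_eq_of_subset_of_forall_sdiff_eq_zero (c k).open_target.measurableSet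
      hS'sub ?_
    intro y hy
    have hx : (c k).symm y ∉ tsupport (ρ i) := fun h => hy.2 (hS'mem y hy.1 (hρs i h))
    rw [fderiv_zero c ρ hy.1 hx]
    simp
  rw [hL, hR]
  -- the transition map
  set τ : E4 → E4 := c k ∘ (c i).symm with hτ
  have hτC : ContDiffOn ℝ ∞ τ S := contDiffOn_trans (hc i) (hc k)
  have himg : τ '' S = S' := by
    exact ((c i).symm.trans (c k)).image_source_eq_target
  have hinj : InjOn τ S := ((c i).symm.trans (c k)).injOn
  have hτd : ∀ y ∈ S, DifferentiableAt ℝ τ y := fun y hy =>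
    (hτC.contDiffAt (hSo.mem_nhds hy)).differentiableAt (by simp)
  rw [← himg, integral_image_eq_integral_abs_det_fderiv_smul volume hSo.measurableSet
    (fun y hy => (hτd y hy).hasFDerivAt.hasFDerivWithinAt) hinj]
  refine setIntegral_congr_fun hSo.measurableSet ?_
  intro y hy
  have hyi : y ∈ (c i).target := hy.1
  have hxk : (c i).symm y ∈ (c k).source := hy.2
  obtain ⟨hdet, hWt⟩ := hcompat k i y hyi hxk
  have hτy : τ y = c k ((c i).symm y) := rfl
  have hinv : (c k).symm (τ y) = (c i).symm y := (c k).left_inv hxk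
  have hτyt : τ y ∈ (c k).target := (c k).map_source hxk
  have hchain : fderiv ℝ (fun z => ρ i ((c i).symm z)) y
      = (fderiv ℝ (fun z => ρ i ((c k).symm z)) (τ y)).comp (fderiv ℝ τ y) := by
    have heq : (fun z => ρ i ((c i).symm z)) =ᶠ[𝓝 y] (fun z => ρ i ((c k).symm z)) ∘ τ := by
      filter_upwards [hSo.mem_nhds hy] with z hz
      show ρ i ((c i).symm z) = ρ i ((c k).symm (c k ((c i).symm z)))
      have hz2 : (c i).symm z ∈ (c k).source := hz.2
      rw [(c k).left_inv hz2]
    rw [heq.fderiv_eq, fderiv_comp]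
    · exact ((contDiffOn_symm (hc k) (hρ i)).contDiffAt
        ((c k).open_target.mem_nhds hτyt)).differentiableAt (by simp)
    · exact hτd y hy
  show ρ k ((c i).symm y) * fderiv ℝ (fun z => ρ i ((c i).symm z)) y (W i y)
    = |(fderiv ℝ τ y).det| • (ρ k ((c k).symm (τ y))
      * fderiv ℝ (fun z => ρ i ((c k).symm z)) (τ y) (W k (τ y)))
  rw [hchain, ContinuousLinearMap.comp_apply, hWt, map_smul, hinv, abs_of_pos hdet, ← hτy]
  simp only [smul_eq_mul]
  ring

omit [T2Space X] in
include hc hW hcompat hρ hρs in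
theorem core [Fintype ι] (hρ1 : ∀ x, ∑ i, ρ i x = 1) :
    ∑ i, ∫ y in (c i).target, ρ i ((c i).symm y) * dvg (W i) y = 0 := by
  -- integrability of the summands
  have hcont : ∀ i k, ContinuousOn
      (fun y => fderiv ℝ (fun z => ρ i ((c k).symm z)) y (W k y)) (c k).target := by
    intro i k
    have h1 : ContDiffOn ℝ 1 (fun z => ρ i ((c k).symm z)) (c k).target :=
      (contDiffOn_symm (hc k) (hρ i)).of_le (by norm_num)
    exact (h1.continuousOn_fderiv_of_isOpen (c k).open_target le_rfl).clm_apply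
      (hW k).continuousOn
  have hrcont : ∀ i k, ContinuousOn (fun y => ρ i ((c k).symm y)) (c k).target := by
    intro i k
    exact (contDiffOn_symm (hc k) (hρ i)).continuousOn
  have hint1 : ∀ i k, IntegrableOn (fun y => ρ k ((c k).symm y)
      * fderiv ℝ (fun z => ρ i ((c k).symm z)) y (W k y)) (c k).target := by
    intro i k
    refine integrableOn_of_zero (c k).open_target (isCompact_K c ρ hρs k) (K_subset c ρ hρs k)
      ((hrcont k k).mul (hcont i k)) ?_
    intro y hy
    have : ρ k ((c k).symm y) = 0 :=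
      image_eq_zero_of_notMem_tsupport (f := ρ k) (notMem_tsupport_of_notMem c ρ hy.1 hy.2)
    rw [this, zero_mul]
  have hint2 : ∀ i k, IntegrableOn (fun y => ρ k ((c i).symm y)
      * fderiv ℝ (fun z => ρ i ((c i).symm z)) y (W i y)) (c i).target := by
    intro i k
    refine integrableOn_of_zero (c i).open_target (isCompact_K c ρ hρs i) (K_subset c ρ hρs i)
      ((hrcont k i).mul (hcont i i)) ?_
    intro y hy
    have : fderiv ℝ (fun z => ρ i ((c i).symm z)) y = 0 :=
      fderiv_zero c ρ hy.1 (notMem_tsupport_of_notMem c ρ hy.1 hy.2)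
    rw [this]; simp
  have h1 : ∀ i, ∫ y in (c i).target, ρ i ((c i).symm y) * dvg (W i) y
      = - ∑ k, Psi c W ρ i k := by
    intro i
    rw [chart_div c hc W hW ρ hρ hρs i]
    unfold Psi
    rw [← integral_finsetSum _ (fun k _ => hint2 i k)]
    congr 1
    refine setIntegral_congr_fun (c i).open_target.measurableSet ?_
    intro y _
    show fderiv ℝ (fun z => ρ i ((c i).symm z)) y (W i y)
      = ∑ k, ρ k ((c i).symm y) * fderiv ℝ (fun z => ρ i ((c i).symm z)) y (W i y)
    rw [← Finset.sum_mul, hρ1, one_mul]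
  have h2 : ∀ k, ∑ i, Phi c W ρ i k = 0 := by
    intro k
    unfold Phi
    rw [← integral_finsetSum _ (fun i _ => hint1 i k)]
    have hz : ∀ y ∈ (c k).target, ∑ i, ρ k ((c k).symm y)
        * fderiv ℝ (fun z => ρ i ((c k).symm z)) y (W k y) = 0 := by
      intro y hy
      rw [← Finset.mul_sum]
      have hd : ∀ i, DifferentiableAt ℝ (fun z => ρ i ((c k).symm z)) y := fun i =>
        ((contDiffOn_symm (hc k) (hρ i)).contDiffAt
          ((c k).open_target.mem_nhds hy)).differentiableAt (by simp)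
      have hs : ∑ i, fderiv ℝ (fun z => ρ i ((c k).symm z)) y = 0 := by
        rw [← fderiv_fun_sum (fun i _ => hd i)]
        have : (fun z => ∑ i, ρ i ((c k).symm z)) = fun _ => (1 : ℝ) := by
          funext z; exact hρ1 _
        rw [this]; simp
      have : ∑ i, fderiv ℝ (fun z => ρ i ((c k).symm z)) y (W k y) = 0 := by
        have h3 := congrArg (fun A : E4 →L[ℝ] ℝ => A (W k y)) hs
        simpa using h3
      rw [this, mul_zero]
    rw [setIntegral_congr_fun (c k).open_target.measurableSet hz]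
    simp
  calc ∑ i, ∫ y in (c i).target, ρ i ((c i).symm y) * dvg (W i) y
      = - ∑ i, ∑ k, Psi c W ρ i k := by rw [← Finset.sum_neg_distrib]; exact Finset.sum_congr rfl fun i _ => h1 i
    _ = - ∑ i, ∑ k, Phi c W ρ i k := by
        congr 1
        exact Finset.sum_congr rfl fun i _ => Finset.sum_congr rfl fun k _ =>
          swap c hc W hcompat ρ hρ hρs i k
    _ = 0 := by rw [Finset.sum_comm, Finset.sum_eq_zero fun k _ => h2 k, neg_zero]


omit [T2Space X] [CompactSpace X] in
include hc hW hcompat hρ hρs in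
/-- **Stokes' theorem**: a vector density on a closed manifold with nonnegative divergence is
divergence free. -/
theorem stokes_aux [T2Space X] [CompactSpace X] [Fintype ι] (hρ1 : ∀ x, ∑ i, ρ i x = 1)
    (hρ0 : ∀ i x, 0 ≤ ρ i x)
    (hnn : ∀ i, ∀ y ∈ (c i).target, 0 ≤ dvg (W i) y) (i : ι) (y : E4) (hy : y ∈ (c i).target) :
    ρ i ((c i).symm y) * dvg (W i) y = 0 := by
  have h0 := core c hc W hW hcompat ρ hρ hρs hρ1
  have hI : ∀ i, 0 ≤ ∫ y in (c i).target, ρ i ((c i).symm y) * dvg (W i) y := fun i =>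
    setIntegral_nonneg (c i).open_target.measurableSet
      fun y hy => mul_nonneg (hρ0 _ _) (hnn i y hy)
  have hIi : ∫ y in (c i).target, ρ i ((c i).symm y) * dvg (W i) y = 0 :=
    (Finset.sum_eq_zero_iff_of_nonneg (fun i _ => hI i)).1 h0 i (Finset.mem_univ _)
  set U := (c i).target with hU
  have hUo : IsOpen U := (c i).open_target
  set K := c i '' tsupport (ρ i) with hK
  have hKc : IsCompact K := isCompact_K c ρ hρs i
  have hKU : K ⊆ U := K_subset c ρ hρs i
  set h : E4 → ℝ := fun y => ρ i ((c i).symm y) * dvg (W i) y with hh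
  have hcf : ContinuousOn (fderiv ℝ (W i)) U :=
    (hW i).continuousOn_fderiv_of_isOpen hUo le_rfl
  have htc : Continuous (fun A : E4 →L[ℝ] E4 => LinearMap.trace ℝ E4 (A : E4 →ₗ[ℝ] E4)) :=
    ((LinearMap.trace ℝ E4).comp (ContinuousLinearMap.coeLM ℝ)).continuous_of_finiteDimensional
  have hcont : ContinuousOn h U :=
    (contDiffOn_symm (hc i) (hρ i)).continuousOn.mul (htc.comp_continuousOn hcf)
  have hint : IntegrableOn h U := by
    refine integrableOn_of_zero hUo hKc hKU hcont ?_
    intro z hz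
    have : ρ i ((c i).symm z) = 0 :=
      image_eq_zero_of_notMem_tsupport (f := ρ i) (notMem_tsupport_of_notMem c ρ hz.1 hz.2)
    show ρ i ((c i).symm z) * dvg (W i) z = 0
    rw [this, zero_mul]
  by_contra hne
  have hpos : 0 < h y := lt_of_le_of_ne (mul_nonneg (hρ0 _ _) (hnn i y hy)) (Ne.symm hne)
  have hev : ∀ᶠ z in 𝓝 y, 0 < h z := by
    have := (hcont y hy).continuousAt (hUo.mem_nhds hy)
    exact this.eventually (lt_mem_nhds hpos)
  have hsupp : 0 < (volume : Measure E4) ({z | 0 < h z} ∩ U) := by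
    obtain ⟨V, hVs, hVo, hyV⟩ := _root_.mem_nhds_iff.1 (inter_mem hev (hUo.mem_nhds hy))
    exact (hVo.measure_pos volume ⟨y, hyV⟩).trans_le (measure_mono hVs)
  have hgt : 0 < ∫ z in U, h z := by
    rw [setIntegral_pos_iff_support_of_nonneg_ae ?_ hint]
    · refine hsupp.trans_le (measure_mono ?_)
      intro z hz
      exact ⟨ne_of_gt hz.1, hz.2⟩
    · refine (ae_restrict_iff' hUo.measurableSet).2 (Eventually.of_forall fun z hz => ?_)
      exact mul_nonneg (hρ0 _ _) (hnn i z hz)
  exact hgt.ne' hIi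

end Manifold

/-- **Stokes' theorem**: a `C^1` vector density on a closed oriented four-manifold, given in
charts, whose divergence is nonnegative is divergence free. -/
theorem stokes {X : Type} [TopologicalSpace X] [T2Space X] [CompactSpace X] [ChartedSpace E4 X]
    [IsManifold 𝓘(ℝ, E4) ∞ X] {ι : Type} (c : ι → OpenPartialHomeomorph X E4)
    (hc : ∀ i, c i ∈ IsManifold.maximalAtlas 𝓘(ℝ, E4) ∞ X)
    (cover : ∀ x, ∃ i, x ∈ (c i).source)
    (W : ι → E4 → E4) (hW : ∀ i, ContDiffOn ℝ 1 (W i) (c i).target)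
    (hcompat : ∀ i j, ∀ y ∈ (c j).target, (c j).symm y ∈ (c i).source →
      0 < (fderiv ℝ (c i ∘ (c j).symm) y).det ∧
      fderiv ℝ (c i ∘ (c j).symm) y (W j y)
        = (fderiv ℝ (c i ∘ (c j).symm) y).det • W i (c i ((c j).symm y)))
    (hnn : ∀ i, ∀ y ∈ (c i).target,
      0 ≤ LinearMap.trace ℝ E4 (fderiv ℝ (W i) y : E4 →ₗ[ℝ] E4)) :
    ∀ i, ∀ y ∈ (c i).target,
      LinearMap.trace ℝ E4 (fderiv ℝ (W i) y : E4 →ₗ[ℝ] E4) = 0 := by
  classical
  intro i0 y0 hy0
  set x0 : X := (c i0).symm y0 with hx0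
  have hx0s : x0 ∈ (c i0).source := (c i0).map_target hy0
  -- an open cover in which only `i0` sees `x0`
  let U : ι → Set X := fun i => if i = i0 then (c i).source else (c i).source \ {x0}
  have hUo : ∀ i, IsOpen (U i) := by
    intro i
    by_cases h : i = i0
    · simp only [U, h, if_true]; exact (c i0).open_source
    · simp only [U, h, if_false]; exact (c i).open_source.sdiff isClosed_singleton
  have hUs : ∀ i, U i ⊆ (c i).source := by
    intro i
    by_cases h : i = i0
    · simp only [U, h, if_true]; exact subset_rfl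
    · simp only [U, h, if_false]; exact sdiff_subset
  have hUc : (univ : Set X) ⊆ ⋃ i, U i := by
    intro x _
    by_cases hx : x = x0
    · refine mem_iUnion.2 ⟨i0, ?_⟩
      simp only [U, if_true, hx]; exact hx0s
    · obtain ⟨i, hi⟩ := cover x
      refine mem_iUnion.2 ⟨i, ?_⟩
      by_cases h : i = i0
      · simp only [U, h, if_true]; exact h ▸ hi
      · simp only [U, h, if_false]; exact ⟨hi, hx⟩
  obtain ⟨f, hf⟩ := SmoothPartitionOfUnity.exists_isSubordinate 𝓘(ℝ, E4) isClosed_univ U hUo hUc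
  -- finitely many of the functions are nonzero
  have hfin : {i | (Function.support (f i)).Nonempty}.Finite :=
    f.locallyFinite.finite_nonempty_of_compact
  let S : Finset ι := insert i0 hfin.toFinset
  have hS : ∀ i, i ∉ S → ∀ x, f i x = 0 := by
    intro i hi x
    by_contra h
    apply hi
    refine Finset.mem_insert_of_mem ?_
    rw [Set.Finite.mem_toFinset]
    exact ⟨x, h⟩
  let c' : S → OpenPartialHomeomorph X E4 := fun i => c i
  let ρ : S → X → ℝ := fun i => f i
  have hsum : ∀ x, ∑ i, ρ i x = 1 := by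
    intro x
    have h1 := f.sum_eq_one (mem_univ x)
    rw [finsum_eq_sum_of_support_subset (s := S)] at h1
    · rw [← h1]
      exact Finset.sum_coe_sort S (fun i => f i x)
    · intro i hi
      by_contra h
      exact hi (hS i h x)
  have hsub : ∀ i : S, tsupport (ρ i) ⊆ (c' i).source := fun i => (hf i).trans (hUs i)
  have key := stokes_aux c' (fun i => hc i) (fun i => W i) (fun i => hW i)
    (fun i j y hy hx => hcompat i j y hy hx) ρ (fun i => (f i).contMDiff) hsub hsum
    (fun i x => f.nonneg i x) (fun i y hy => hnn i y hy) ⟨i0, Finset.mem_insert_self _ _⟩ y0 hy0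
  have hρ1 : f i0 x0 = 1 := by
    have h1 := f.sum_eq_one (mem_univ x0)
    rw [finsum_eq_single _ i0] at h1
    · exact h1
    · intro i hi
      have hx : x0 ∉ tsupport (f i) := by
        intro h
        have := hf i h
        simp only [U, hi, if_false] at this
        exact this.2 rfl
      exact image_eq_zero_of_notMem_tsupport hx
  have h2 : f i0 x0 * LinearMap.trace ℝ E4 (fderiv ℝ (W i0) y0 : E4 →ₗ[ℝ] E4) = 0 := key
  rwa [hρ1, one_mul] at h2

end Pool.Agent.Helper64.DC
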