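import Mathlib

/-!
# A kernel bound in `L^2`
-/

open MeasureTheory Set Filter
open scoped Topology ContDiff ENNReal

noncomputable section

namespace Pool.Agent.Helper64.DC

/-- Euclidean four-space -/
abbrev R4 := EuclideanSpace ℝ (Fin 4)

lemma cauchy_pt (G H : R4 → ℝ≥0∞) (hG : Measurable G) (hH : Measurable H) (x : R4) :
    (∫⁻ y, G (x - y) * H y) ^ (2 : ℝ)
      ≤ (∫⁻ z, G z) * ∫⁻ y, G (x - y) * H y ^ (2 : ℝ) := by
  have hpq : (2 : ℝ).HolderConjugate 2 := Real.HolderConjugate.two_two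
  have hG' : Measurable fun y => G (x - y) := hG.comp (measurable_const.sub measurable_id)
  have h1 := ENNReal.lintegral_mul_le_Lp_mul_Lq (volume : Measure R4) hpq
    (f := fun y => G (x - y) ^ (1 / 2 : ℝ)) (g := fun y => G (x - y) ^ (1 / 2 : ℝ) * H y)
    (hG'.pow_const _).aemeasurable ((hG'.pow_const _).mul hH).aemeasurable
  have e0 : ∀ t : ℝ≥0∞, t ^ (1 / 2 : ℝ) * t ^ (1 / 2 : ℝ) = t := by
    intro t
    rw [← ENNReal.rpow_add_of_nonneg _ _ (by norm_num) (by norm_num)]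
    norm_num
  have e1 : ∀ t : ℝ≥0∞, (t ^ (1 / 2 : ℝ)) ^ (2 : ℝ) = t := by
    intro t
    rw [← ENNReal.rpow_mul]
    norm_num
  have hL : (∫⁻ y, ((fun y => G (x - y) ^ (1 / 2 : ℝ)) *
      (fun y => G (x - y) ^ (1 / 2 : ℝ) * H y)) y) = ∫⁻ y, G (x - y) * H y := by
    refine lintegral_congr fun y => ?_
    simp only [Pi.mul_apply]
    rw [← mul_assoc, e0]
  have hR1 : (∫⁻ y, (fun y => G (x - y) ^ (1 / 2 : ℝ)) y ^ (2 : ℝ)) = ∫⁻ z, G z := by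
    have : (∫⁻ y, (fun y => G (x - y) ^ (1 / 2 : ℝ)) y ^ (2 : ℝ)) = ∫⁻ y, G (x - y) :=
      lintegral_congr fun y => e1 _
    rw [this]
    exact lintegral_sub_left_eq_self G x
  have hR2 : (∫⁻ y, (fun y => G (x - y) ^ (1 / 2 : ℝ) * H y) y ^ (2 : ℝ))
      = ∫⁻ y, G (x - y) * H y ^ (2 : ℝ) := by
    refine lintegral_congr fun y => ?_
    show (G (x - y) ^ (1 / 2 : ℝ) * H y) ^ (2 : ℝ) = _
    rw [ENNReal.mul_rpow_of_nonneg _ _ (by norm_num), e1]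
  rw [hL, hR1, hR2] at h1
  calc (∫⁻ y, G (x - y) * H y) ^ (2 : ℝ)
      ≤ ((∫⁻ z, G z) ^ (1 / 2 : ℝ)
          * (∫⁻ y, G (x - y) * H y ^ (2 : ℝ)) ^ (1 / 2 : ℝ)) ^ (2 : ℝ) :=
        ENNReal.rpow_le_rpow h1 (by norm_num)
    _ = _ := by
        rw [ENNReal.mul_rpow_of_nonneg _ _ (by norm_num), e1, e1]

lemma young_sq (G H : R4 → ℝ≥0∞) (hG : Measurable G) (hH : Measurable H) :
    ∫⁻ x, (∫⁻ y, G (x - y) * H y) ^ (2 : ℝ) ≤ (∫⁻ z, G z) ^ (2 : ℝ) * ∫⁻ y, H y ^ (2 : ℝ) := by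
  have hK : Measurable (Function.uncurry fun x y : R4 => G (x - y) * H y ^ (2 : ℝ)) := by
    refine Measurable.mul ?_ ?_
    · exact hG.comp (measurable_fst.sub measurable_snd)
    · exact (hH.pow_const _).comp measurable_snd
  calc ∫⁻ x, (∫⁻ y, G (x - y) * H y) ^ (2 : ℝ)
      ≤ ∫⁻ x, (∫⁻ z, G z) * ∫⁻ y, G (x - y) * H y ^ (2 : ℝ) :=
        lintegral_mono fun x => cauchy_pt G H hG hH x
    _ = (∫⁻ z, G z) * ∫⁻ x, ∫⁻ y, G (x - y) * H y ^ (2 : ℝ) := by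
        rw [lintegral_const_mul]
        exact hK.lintegral_prod_right
    _ = (∫⁻ z, G z) * ∫⁻ y, ∫⁻ x, G (x - y) * H y ^ (2 : ℝ) := by
        rw [lintegral_lintegral_swap hK.aemeasurable]
    _ = (∫⁻ z, G z) * ∫⁻ y, (∫⁻ z, G z) * H y ^ (2 : ℝ) := by
        congr 1
        refine lintegral_congr fun y => ?_
        have hm : Measurable fun x => G (x - y) := hG.comp (measurable_id.sub_const y)
        rw [lintegral_mul_const _ hm, lintegral_sub_right_eq_self G y]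
    _ = (∫⁻ z, G z) ^ (2 : ℝ) * ∫⁻ y, H y ^ (2 : ℝ) := by
        rw [lintegral_const_mul _ (hH.pow_const _), ← mul_assoc]
        congr 1
        rw [show (2 : ℝ) = 1 + 1 by norm_num, ENNReal.rpow_add_of_nonneg _ _ zero_le_one zero_le_one,
          ENNReal.rpow_one]

/-- the kernel bound -/
lemma young (G : R4 → ℝ≥0∞) (hG : Measurable G) (h T : R4 → ℝ)
    (hh : AEStronglyMeasurable h volume)
    (hb : ∀ x, ‖T x‖ₑ ≤ ∫⁻ y, G (x - y) * ‖h y‖ₑ) :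
    eLpNorm T 2 volume ≤ (∫⁻ z, G z) * eLpNorm h 2 volume := by
  obtain ⟨h', hm', hae⟩ := hh
  have hb' : ∀ x, ‖T x‖ₑ ≤ ∫⁻ y, G (x - y) * ‖h' y‖ₑ := by
    intro x
    refine (hb x).trans (le_of_eq (lintegral_congr_ae ?_))
    filter_upwards [hae] with y hy
    rw [hy]
  rw [eLpNorm_congr_ae hae]
  have e2 : (2 : ℝ≥0∞).toReal = 2 := by simp
  rw [eLpNorm_eq_lintegral_rpow_enorm_toReal (by norm_num) (by norm_num),
    eLpNorm_eq_lintegral_rpow_enorm_toReal (by norm_num) (by norm_num), e2]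
  have h1 : ∫⁻ x, ‖T x‖ₑ ^ (2 : ℝ)
      ≤ (∫⁻ z, G z) ^ (2 : ℝ) * ∫⁻ y, ‖h' y‖ₑ ^ (2 : ℝ) := by
    refine (lintegral_mono fun x => ENNReal.rpow_le_rpow (hb' x) (by norm_num)).trans ?_
    exact young_sq G (fun y => ‖h' y‖ₑ) hG hm'.enorm
  calc (∫⁻ x, ‖T x‖ₑ ^ (2 : ℝ)) ^ (1 / (2 : ℝ))
      ≤ ((∫⁻ z, G z) ^ (2 : ℝ) * ∫⁻ y, ‖h' y‖ₑ ^ (2 : ℝ)) ^ (1 / (2 : ℝ)) :=
        ENNReal.rpow_le_rpow h1 (by norm_num)
    _ = (∫⁻ z, G z) * (∫⁻ y, ‖h' y‖ₑ ^ (2 : ℝ)) ^ (1 / (2 : ℝ)) := by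
        rw [ENNReal.mul_rpow_of_nonneg _ _ (by norm_num), ← ENNReal.rpow_mul]
        norm_num

end Pool.Agent.Helper64.DC
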